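import Pool.Agent.N65.TE.Defs
import Pool.Agent.N65.TD.Unram
set_option autoImplicit false

/-!
Symbols with entries which are values of polynomials of simplex type.
-/

namespace Pool.Agent.N65.TE

open scoped WithZero

open Pool.Agent.TH826.MK

open Pool.Agent.TH826.SX (symb_self symb_eq_zero_of_sum symb_neg_on symb_upd_one)

open Pool.Agent.N65.TL

open Pool.Agent.N65.TD

section tame

variable {K : Type*} [Field K] {n : ℕ}

theorem SimplexProduct.tame {W : LP K n} (h : SimplexProduct W) : Tame W := by
  obtain ⟨r, G, hG, hW⟩ := h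
  refine ⟨1, r, G, one_ne_zero, fun m => ?_, hG, by rw [mul_one, hW]⟩
  rw [AddMonoidAlgebra.one_def, AddMonoidAlgebra.coeff_single]
  by_cases h : m = 0
  · rw [h, Finsupp.single_eq_same]
    exact isIntegral_one
  · rw [Finsupp.single_eq_of_ne h]
    exact isIntegral_zero

theorem SimplexType.product {W : LP K n} (h : SimplexType W) : SimplexProduct W :=
  ⟨1, fun _ => W, fun _ => h, by simp⟩

theorem SimplexType.tame {W : LP K n} (h : SimplexType W) : Tame W :=
  (SimplexType.product h).tame

end tame

section alg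

variable {L : Type*} [Field L] {n N : ℕ}

/-- the dependence of a symbol on one entry -/
noncomputable def uh (a : Fin N → Lˣ) (l : Fin N) : Lˣ →* Multiplicative (KQ L N) where
  toFun x := Multiplicative.ofAdd (symb (Function.update a l x))
  map_one' := by rw [symb_upd_one, ofAdd_zero]
  map_mul' x y := by rw [symb_update_mul, ofAdd_add]

theorem uh_eq_one_iff (a : Fin N → Lˣ) (l : Fin N) (x : Lˣ) :
    uh a l x = 1 ↔ symb (Function.update a l x) = 0 := Iff.rfl

theorem symb_upd_tors (a : Fin N → Lˣ) (l : Fin N) {x : Lˣ} (h : ∃ k : ℕ, k ≠ 0 ∧ x ^ k = 1) :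
    symb (Function.update a l x) = 0 := by
  obtain ⟨k, hk, hx⟩ := h
  have h1 := symb_update_zpow a l x (k : ℤ)
  rw [zpow_natCast, hx, symb_upd_one] at h1
  have hk' : (((k : ℤ)) : ℚ) ≠ 0 := by exact_mod_cast hk
  exact (smul_eq_zero.1 h1.symm).resolve_left hk'

theorem symb_upd_mon (a : Fin N → Lˣ) (l : Fin N) (p : Fin n → Fin N) (hl : ∀ j, p j ≠ l)
    (m : Fin n → ℤ) : symb (Function.update a l (mon (fun j => a (p j)) m)) = 0 := by
  rw [← uh_eq_one_iff]
  unfold mon
  rw [map_prod]
  refine Finset.prod_eq_one fun j _ => ?_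
  rw [map_zpow]
  have h : uh a l (a (p j)) = 1 := by
    rw [uh_eq_one_iff]
    exact symb_self _ (hl j).symm (by rw [Function.update_self, Function.update_of_ne (hl j)])
  rw [h, one_zpow]

/-- If an entry is one plus a sum of monomials in other entries with independent exponents, the
symbol vanishes. -/
theorem symb_eq_zero_of_indep (a : Fin N → Lˣ) {p : Fin n → Fin N}
    (hp : Function.Injective p) {ι : Type*} [Fintype ι] (q : ι → Fin n → ℤ)
    (hq : LinearIndependent ℤ q) (ε : ι → Lˣ) (hε : ∀ i, ∃ k : ℕ, k ≠ 0 ∧ ε i ^ k = 1)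
    {l0 : Fin N} (hl0 : ∀ j, p j ≠ l0)
    (h : (a l0 : L) = 1 + ∑ i, ((ε i * mon (fun j => a (p j)) (q i) : Lˣ) : L)) :
    symb a = 0 := by
  classical
  obtain ⟨e, M, he, hM, hdet⟩ := exists_complete q hq
  set b : Fin N → Lˣ := Function.extend p (fun i => mon (fun j => a (p j)) (M i)) a with hb
  have hbs : symb b = (Matrix.of M).det • symb a := symb_mon a hp M
  have hpe : Function.Injective (fun i => p (e i)) := hp.comp he
  set c : Fin N → Lˣ := Function.extend (fun i => p (e i))
    (fun i => ε i * mon (fun j => a (p j)) (q i)) b with hc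
  have hce : ∀ i, c (p (e i)) = ε i * mon (fun j => a (p j)) (q i) := by
    intro i
    have h2 := hpe.extend_apply (fun i => ε i * mon (fun j => a (p j)) (q i)) b i
    exact h2
  have hbe : ∀ i, b (p (e i)) = mon (fun j => a (p j)) (q i) := by
    intro i
    rw [hb, hp.extend_apply, hM]
  have hcb : symb c = symb b := by
    refine symb_tors _ _ fun l => ?_
    by_cases hl : ∃ i, p (e i) = l
    · obtain ⟨i, rfl⟩ := hl
      obtain ⟨k, hk, hk1⟩ := hε i
      refine ⟨k, hk, ?_⟩
      rw [hce, hbe, mul_div_cancel_right]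
      exact hk1
    · refine ⟨1, one_ne_zero, ?_⟩
      have h2 : c l = b l := by
        rw [hc, Function.extend_apply' _ _ _ hl]
      rw [h2, div_self', one_pow]
  have hcl0 : c l0 = a l0 := by
    have h2 : ¬ ∃ i, p (e i) = l0 := fun ⟨i, hi⟩ => hl0 _ hi
    have h3 : ¬ ∃ i, p i = l0 := fun ⟨i, hi⟩ => hl0 _ hi
    rw [hc, Function.extend_apply' _ _ _ h2, hb, Function.extend_apply' _ _ _ h3]
  set T : Finset (Fin N) := Finset.univ.image fun i => p (e i) with hT
  have hTl0 : l0 ∉ T := by
    intro h2
    obtain ⟨i, -, hi⟩ := Finset.mem_image.1 h2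
    exact hl0 _ hi
  have hc0 : symb c = 0 := by
    rw [← symb_neg_on c T]
    refine symb_eq_zero_of_sum _ (insert l0 T) _ rfl ?_
    have hs : ∑ k ∈ T, (((if k ∈ T then -c k else c k : Lˣ)) : L) =
        -∑ i, ((ε i * mon (fun j => a (p j)) (q i) : Lˣ) : L) := by
      rw [Finset.sum_congr rfl fun k hk => by rw [if_pos hk, Units.val_neg],
        Finset.sum_neg_distrib, hT, Finset.sum_image fun i _ j _ hij => hpe hij]
      simp only [hce]
    rw [Finset.sum_insert hTl0, if_neg hTl0, hcl0, h, hs]
    ring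
  rw [hcb, hbs, ← Int.cast_smul_eq_zsmul ℚ] at hc0
  exact (smul_eq_zero.1 hc0).resolve_left (by exact_mod_cast hdet)

/-- If an entry is the value of a polynomial of simplex type at other entries, the symbol
vanishes. -/
theorem symb_eq_zero_of_simplex {K : Type*} [Field K] (φ : K →+* L) (a : Fin N → Lˣ)
    {p : Fin n → Fin N} (hp : Function.Injective p) {G : LP K n} (hG : SimplexType G)
    {l0 : Fin N} (hl0 : ∀ j, p j ≠ l0) (h : (a l0 : L) = lev φ (fun j => a (p j)) G) :
    symb a = 0 := by
  classical
  obtain ⟨d, m, ε, hm, hε, rfl⟩ := hG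
  have hε0 : ∀ i, ε i ≠ 0 := by
    intro i h0
    obtain ⟨k', hk', hk1⟩ := hε i
    rw [h0, zero_pow hk'] at hk1
    exact zero_ne_one hk1
  set z : Fin n → Lˣ := fun j => a (p j) with hz
  set u : Fin (d + 1) → Lˣ := fun i => Units.mk0 (φ (ε i)) ((map_ne_zero φ).2 (hε0 i)) with hu
  have hu1 : ∀ i, ∃ k : ℕ, k ≠ 0 ∧ u i ^ k = 1 := by
    intro i
    obtain ⟨k, hk, hk1⟩ := hε i
    refine ⟨k, hk, Units.ext ?_⟩
    rw [Units.val_pow_eq_pow_val, hu, Units.val_mk0, ← map_pow, hk1, map_one, Units.val_one]
  have hlev : lev φ z (∑ i, AddMonoidAlgebra.single (m i) (ε i) : LP K n) =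
      ∑ i, ((u i * mon z (m i) : Lˣ) : L) := by
    rw [map_sum]
    refine Finset.sum_congr rfl fun i _ => ?_
    rw [lev_single, Units.val_mul]
    rfl
  rw [hlev] at h
  set x0 : Lˣ := u 0 * mon z (m 0) with hx0
  set g : Lˣ := a l0 / x0 with hg
  have ha : a = Function.update a l0 (u 0 * mon z (m 0) * g) := by
    rw [hg, ← hx0, mul_div_cancel, Function.update_eq_self]
  rw [ha, symb_update_mul, symb_update_mul, symb_upd_tors a l0 (hu1 0),
    symb_upd_mon a l0 p hl0 (m 0), zero_add, zero_add]
  have hlin := (affineIndependent_iff_linearIndependent_vsub ℤ m 0).1 hm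
  have hzu : (fun j => Function.update a l0 g (p j)) = z := by
    funext j
    rw [Function.update_of_ne (hl0 j)]
  refine symb_eq_zero_of_indep (Function.update a l0 g) hp
    (fun i : {i : Fin (d + 1) // i ≠ 0} => m i.1 -ᵥ m 0) hlin (fun i => u i.1 / u 0) (fun i => ?_)
    hl0 ?_
  · obtain ⟨k1, hk1, hk1'⟩ := hu1 i.1
    obtain ⟨k2, hk2, hk2'⟩ := hu1 0
    refine ⟨k1 * k2, mul_ne_zero hk1 hk2, ?_⟩
    rw [div_pow, pow_mul, hk1', one_pow, mul_comm k1 k2, pow_mul, hk2', one_pow, div_one]
  · rw [hzu, Function.update_self]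
    have hterm : ∀ i : {i : Fin (d + 1) // i ≠ 0},
        ((u i.1 / u 0 * mon z (m i.1 -ᵥ m 0) : Lˣ) : L) =
          ((u i.1 * mon z (m i.1) : Lˣ) : L) / (x0 : L) := by
      intro i
      rw [vsub_eq_sub, mon_sub, hx0, ← Units.val_div_eq_div_val]
      congr 1
      rw [div_mul_div_comm]
    rw [Finset.sum_congr rfl fun i _ => hterm i, ← Finset.sum_div, hg, Units.val_div_eq_div_val, h,
      eq_comm, ← div_self (Units.ne_zero x0), ← add_div]
    congr 1
    rw [← Finset.add_sum_erase Finset.univ _ (Finset.mem_univ (0 : Fin (d + 1)))]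
    congr 1
    refine (Finset.sum_subtype (Finset.univ.erase 0) (fun i => ?_)
      (fun i => ((u i * mon z (m i) : Lˣ) : L))).symm
    simp

/-- If an entry is congruent to the product of the values of polynomials of simplex type at other
entries, the symbol lies in the unit part. -/
theorem mem_unitPart_of_product {K : Type*} [Field K] (φ : K →+* L) (v : Valuation L ℤᵐ⁰)
    (a : Fin N → Lˣ) {p : Fin n → Fin N} (hp : Function.Injective p) {G : LP K n}
    (hG : SimplexProduct G) {l0 : Fin N} (hl0 : ∀ j, p j ≠ l0)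
    (h : v ((a l0 : L) - lev φ (fun j => a (p j)) G) < v (a l0 : L)) :
    symb a ∈ unitPart v N := by
  classical
  obtain ⟨r, g, hg, rfl⟩ := hG
  set z : Fin n → Lˣ := fun j => a (p j) with hz
  have hne : lev φ z (∏ j, g j) ≠ 0 := by
    intro h0
    rw [h0, sub_zero] at h
    exact lt_irrefl _ h
  rw [map_prod] at hne
  have hne' : ∀ j, lev φ z (g j) ≠ 0 := fun j =>
    Finset.prod_ne_zero_iff.1 hne j (Finset.mem_univ j)
  set y : Fin r → Lˣ := fun j => Units.mk0 _ (hne' j) with hy
  set w : Lˣ := a l0 / ∏ j, y j with hw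
  have hyv : ((∏ j, y j : Lˣ) : L) = lev φ z (∏ j, g j) := by
    rw [Units.coe_prod, map_prod]
    rfl
  have ha : a = Function.update a l0 ((∏ j, y j) * w) := by
    rw [hw, mul_div_cancel, Function.update_eq_self]
  rw [ha, symb_update_mul]
  have h1 : symb (Function.update a l0 (∏ j, y j)) = 0 := by
    rw [← uh_eq_one_iff, map_prod]
    refine Finset.prod_eq_one fun j _ => ?_
    rw [uh_eq_one_iff]
    refine symb_eq_zero_of_simplex φ _ hp (hg j) hl0 ?_
    rw [Function.update_self]
    have h2 : (fun i => Function.update a l0 (y j) (p i)) = z := by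
      funext i
      rw [Function.update_of_ne (hl0 i)]
    rw [h2]
    rfl
  rw [h1, zero_add]
  refine mem_unitPart_of_oneUnit' v l0 _ ?_
  rw [Function.update_self, hw, Units.val_div_eq_div_val, hyv]
  have hva : v (a l0 : L) = v (lev φ z (∏ j, g j)) := by
    have h3 := Valuation.map_sub_eq_of_lt_left v h
    rwa [sub_sub_cancel, eq_comm] at h3
  rw [map_prod] at hva h ⊢
  rw [div_sub_one hne, map_div₀, ← hva, div_lt_one₀]
  · exact h
  · rw [Valuation.pos_iff]
    exact (a l0).ne_zero

/-- If a sum of monomials with independent exponents, multiplied by roots of unity, is congruent to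
`X`, then the symbol lies in the unit part, if all symbols do in which some entry is replaced by
`X`. -/
theorem mem_unitPart_of_generic (v : Valuation L ℤᵐ⁰) (a : Fin N → Lˣ) {p : Fin n → Fin N}
    (hp : Function.Injective p) {ι : Type*} [Fintype ι] (q : ι → Fin n → ℤ)
    (hq : LinearIndependent ℤ q) (ε : ι → Lˣ) (hε : ∀ i, ∃ k : ℕ, k ≠ 0 ∧ ε i ^ k = 1)
    (X : Lˣ) (h1 : ∀ i, v ((ε i * mon (fun j => a (p j)) (q i) : Lˣ) : L) ≤ v (X : L))
    (h : v ((X : L) - ∑ i, ((ε i * mon (fun j => a (p j)) (q i) : Lˣ) : L)) < v (X : L))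
    (hX : ∀ c : Fin N → Lˣ, (∀ l, (∀ j, p j ≠ l) → c l = a l) → (∃ j, c (p j) = X) →
      symb c ∈ unitPart v N) :
    symb a ∈ unitPart v N := by
  classical
  obtain ⟨e, M, he, hM, hdet⟩ := exists_complete q hq
  set b : Fin N → Lˣ := Function.extend p (fun i => mon (fun j => a (p j)) (M i)) a with hb
  have hbs : symb b = (Matrix.of M).det • symb a := symb_mon a hp M
  have hpe : Function.Injective (fun i => p (e i)) := hp.comp he
  set c : Fin N → Lˣ := Function.extend (fun i => p (e i))
    (fun i => ε i * mon (fun j => a (p j)) (q i)) b with hc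
  have hce : ∀ i, c (p (e i)) = ε i * mon (fun j => a (p j)) (q i) := by
    intro i
    have h2 := hpe.extend_apply (fun i => ε i * mon (fun j => a (p j)) (q i)) b i
    exact h2
  have hbe : ∀ i, b (p (e i)) = mon (fun j => a (p j)) (q i) := by
    intro i
    rw [hb, hp.extend_apply, hM]
  have hcout : ∀ l, (∀ j, p j ≠ l) → c l = a l := by
    intro l hl
    have h2 : ¬ ∃ i, p (e i) = l := fun ⟨i, hi⟩ => hl _ hi
    have h3 : ¬ ∃ i, p i = l := fun ⟨i, hi⟩ => hl _ hi
    rw [hc, Function.extend_apply' _ _ _ h2, hb, Function.extend_apply' _ _ _ h3]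
  have hcb : symb c = symb b := by
    refine symb_tors _ _ fun l => ?_
    by_cases hl : ∃ i, p (e i) = l
    · obtain ⟨i, rfl⟩ := hl
      obtain ⟨k, hk, hk1⟩ := hε i
      refine ⟨k, hk, ?_⟩
      rw [hce, hbe, mul_div_cancel_right]
      exact hk1
    · refine ⟨1, one_ne_zero, ?_⟩
      have h2 : c l = b l := by
        rw [hc, Function.extend_apply' _ _ _ hl]
      rw [h2, div_self', one_pow]
  set cT : Finset ι → Fin N → Lˣ := fun T l => if ∃ i ∈ T, p (e i) = l then c l / X else c l
    with hcT
  have key : ∀ T : Finset ι, symb (cT T) ∈ unitPart v N → symb c ∈ unitPart v N := by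
    intro T
    induction T using Finset.induction_on with
    | empty =>
      intro h2
      have h3 : cT ∅ = c := by
        funext l
        simp [hcT]
      rwa [h3] at h2
    | insert j T hj ih =>
      intro h2
      apply ih
      have h3 : cT T (p (e j)) = c (p (e j)) := by
        rw [hcT]
        simp only
        rw [if_neg]
        rintro ⟨i, hi, hij⟩
        exact hj (hpe hij ▸ hi)
      have h4 : cT T = Function.update (cT T) (p (e j)) (c (p (e j)) / X * X) := by
        rw [div_mul_cancel, ← h3, Function.update_eq_self]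
      rw [h4, symb_update_mul]
      refine Submodule.add_mem _ ?_ (hX _ (fun l hl => ?_) ⟨e j, Function.update_self _ _ _⟩)
      · have h5 : Function.update (cT T) (p (e j)) (c (p (e j)) / X) = cT (insert j T) := by
          funext l
          by_cases hl : l = p (e j)
          · subst hl
            rw [Function.update_self]
            simp only [hcT]
            rw [if_pos ⟨j, Finset.mem_insert_self _ _, rfl⟩]
          · rw [Function.update_of_ne hl]
            simp only [hcT]
            congr 1
            apply propext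
            constructor
            · rintro ⟨i, hi, h6⟩
              exact ⟨i, Finset.mem_insert_of_mem hi, h6⟩
            · rintro ⟨i, hi, h6⟩
              rcases Finset.mem_insert.1 hi with rfl | hi
              · exact absurd h6.symm hl
              · exact ⟨i, hi, h6⟩
        rw [h5]
        exact h2
      · rw [Function.update_of_ne (hl _).symm]
        simp only [hcT]
        rw [if_neg fun ⟨i, _, hi⟩ => hl _ hi]
        exact hcout l hl
  have hX0 : 0 < v (X : L) := by
    rw [Valuation.pos_iff]
    exact X.ne_zero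
  have hcm : symb c ∈ unitPart v N := by
    refine key Finset.univ ?_
    set T : Finset (Fin N) := Finset.univ.image fun i => p (e i) with hT
    rw [← symb_neg_on (cT Finset.univ) T]
    have hcu : ∀ i, cT Finset.univ (p (e i)) = (ε i * mon (fun j => a (p j)) (q i)) / X := by
      intro i
      simp only [hcT]
      rw [if_pos ⟨i, Finset.mem_univ _, rfl⟩, hce]
    refine Pool.Agent.TH577.UA.mem_unitPart_of_sum_on v _ T (fun k hk => ?_) ?_
    · rw [if_pos hk, Units.val_neg, Valuation.map_neg]
      obtain ⟨i, -, rfl⟩ := Finset.mem_image.1 hk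
      rw [hcu, Units.val_div_eq_div_val, map_div₀]
      exact (div_le_one₀ hX0).2 (h1 i)
    · rw [Finset.sum_congr rfl fun k hk => by rw [if_pos hk, Units.val_neg],
        Finset.sum_neg_distrib, hT, Finset.sum_image fun i _ j _ hij => hpe hij]
      simp only [hcu, Units.val_div_eq_div_val]
      rw [← Finset.sum_div, ← sub_eq_add_neg, one_sub_div X.ne_zero, map_div₀, div_lt_one₀ hX0]
      exact h
  rw [hcb, hbs] at hcm
  have h2 := (unitPart v N).smul_mem (((Matrix.of M).det : ℚ)⁻¹) hcm
  rw [← Int.cast_smul_eq_zsmul ℚ, smul_smul, inv_mul_cancel₀ (by exact_mod_cast hdet),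
    one_smul] at h2
  exact h2

end alg

/-- Affinely independent exponents on an affine hyperplane which does not contain the origin are
linearly independent. -/
theorem linIndep_of_affine {n d : ℕ} {m : Fin (d + 1) → Fin n → ℤ} (hm : AffineIndependent ℤ m)
    {k : Fin n → ℤ} {M : ℤ} (hM : M ≠ 0) (h : ∀ i, ∑ j, k j * m i j = M) :
    LinearIndependent ℤ m := by
  rw [Fintype.linearIndependent_iff]
  intro c hc
  have h1 : ∑ i, c i = 0 := by
    have h2 : ∑ j, k j * (∑ i, c i • m i) j = 0 := by
      rw [hc]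
      simp
    have h3 : ∑ j, k j * (∑ i, c i • m i) j = (∑ i, c i) * M := by
      simp only [Finset.sum_apply, Pi.smul_apply, smul_eq_mul, Finset.mul_sum]
      rw [Finset.sum_comm, Finset.sum_mul]
      refine Finset.sum_congr rfl fun i _ => ?_
      rw [← h i, Finset.mul_sum]
      exact Finset.sum_congr rfl fun j _ => by ring
    rw [h3] at h2
    exact (mul_eq_zero.1 h2).resolve_right hM
  exact fun i => (affineIndependent_iff.1 hm) Finset.univ c h1 hc i (Finset.mem_univ i)

end Pool.Agent.N65.TE
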