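import Pool.Agent.N65.TD.Defs
set_option autoImplicit false

/-!
The fibre products of the fibrations `W(z) = F(x)` and `V(y) = G(x)` over the `x`-line: definitions.
-/

namespace Pool.Agent.N65.TE

open Pool.Agent.TH826.MK (KQ symb Unramified Torus)

open Pool.Agent.N65.TL

open Pool.Agent.N65.TD

section conditions

variable {K : Type*} [Field K] {n : ℕ}

/-- A product of polynomials of simplex type. -/
def SimplexProduct (W : LP K n) : Prop :=
  ∃ (r : ℕ) (G : Fin r → LP K n), (∀ j, SimplexType (G j)) ∧ W = ∏ j, G j

/-- Integral coefficients, the origin in the interior of the Newton polytope, and the polynomials of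
all proper faces are of simplex type. -/
structure SimplexFaces (W : LP K n) : Prop where
  /-- integral coefficients -/
  int : Integral W
  /-- the origin is an interior point of the Newton polytope -/
  interior : Interior W
  /-- the polynomials of the proper faces are of simplex type -/
  faces : ∀ a : Fin n → ℤ, a ≠ 0 → SimplexType (face W a)

/-- Integral coefficients, the origin in the interior of the Newton polytope, and the polynomials of
all proper faces are products of polynomials of simplex type. -/
structure ProductFaces (W : LP K n) : Prop where
  /-- integral coefficients -/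
  int : Integral W
  /-- the origin is an interior point of the Newton polytope -/
  interior : Interior W
  /-- the polynomials of the proper faces are products of polynomials of simplex type -/
  faces : ∀ a : Fin n → ℤ, a ≠ 0 → SimplexProduct (face W a)

/-- A monic polynomial of positive degree with integral coefficients. -/
structure MonicInt (F : Polynomial K) : Prop where
  /-- monic -/
  monic : F.Monic
  /-- positive degree -/
  pos : 0 < F.natDegree
  /-- integral coefficients -/
  int : ∀ k, IsIntegral ℤ (F.coeff k)

end conditions

section ring

variable {K : Type*} [Field K] (s t : ℕ)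

/-- The Laurent polynomials in `z_0, ..., z_s` over the polynomials in `x`. -/
def ZRing (K : Type*) [Field K] (s : ℕ) : Type _ := LP (Polynomial K) (s + 1)

noncomputable instance (K : Type*) [Field K] (s : ℕ) : CommRing (ZRing K s) :=
  AddMonoidAlgebra.commRing

/-- The polynomials in `x`. -/
noncomputable def zx (s : ℕ) : Polynomial K →+* ZRing K s := AddMonoidAlgebra.singleZeroRingHom

/-- The Laurent polynomials in `y_0, ..., y_t` over the Laurent polynomials in `z_0, ..., z_s` over
the polynomials in `x`. -/
def YRing (K : Type*) [Field K] (s t : ℕ) : Type _ := LP (ZRing K s) (t + 1)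

noncomputable instance (K : Type*) [Field K] (s t : ℕ) : CommRing (YRing K s t) :=
  AddMonoidAlgebra.commRing

/-- The Laurent polynomials in `z` over the polynomials in `x`. -/
noncomputable def yz (t : ℕ) : ZRing K s →+* YRing K s t := AddMonoidAlgebra.singleZeroRingHom

/-- The polynomials in `x`. -/
noncomputable def yx : Polynomial K →+* YRing K s t := (yz s t).comp (zx s)

/-- The Laurent polynomials in `z` with constant coefficients. -/
noncomputable def inz (W : LP K (s + 1)) : YRing K s t :=
  yz s t (AddMonoidAlgebra.mapRingHom (Fin (s + 1) → ℤ) Polynomial.C W)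

/-- The Laurent polynomials in `y` with constant coefficients. -/
noncomputable def iny (V : LP K (t + 1)) : YRing K s t :=
  AddMonoidAlgebra.mapRingHom (Fin (t + 1) → ℤ) ((zx s).comp Polynomial.C) V

variable {s t} (W : LP K (s + 1)) (V : LP K (t + 1)) (F G : Polynomial K)

/-- The ideal generated by `W(z) - F(x)` and `V(y) - G(x)`. -/
noncomputable def pideal : Ideal (YRing K s t) :=
  Ideal.span {inz s t W - yx s t F, iny s t V - yx s t G}

/-- The coordinate ring of the fibre product `W(z) = F(x)`, `V(y) = G(x)`, `z_i ≠ 0`, `y_j ≠ 0`. -/
def PRing : Type _ := YRing K s t ⧸ pideal W V F G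

noncomputable instance : CommRing (PRing W V F G) := Ideal.Quotient.commRing (pideal W V F G)

/-- The restriction of functions to the fibre product. -/
noncomputable def pmk : YRing K s t →+* PRing W V F G := Ideal.Quotient.mk (pideal W V F G)

/-- The polynomials in `x` as functions on the fibre product. -/
noncomputable def px : Polynomial K →+* PRing W V F G := (pmk W V F G).comp (yx s t)

/-- The constants as functions on the fibre product. -/
noncomputable def pcst : K →+* PRing W V F G := (px W V F G).comp Polynomial.C

/-- The units `z_i`. -/
noncomputable def pz (i : Fin (s + 1)) : (PRing W V F G)ˣ :=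
  Units.map ((pmk W V F G).comp (yz s t) : ZRing K s →* PRing W V F G)
    (zlau i : (LP (Polynomial K) (s + 1))ˣ)

/-- The units `y_j`. -/
noncomputable def py (j : Fin (t + 1)) : (PRing W V F G)ˣ :=
  Units.map (pmk W V F G : YRing K s t →* PRing W V F G) (zlau j : (LP (ZRing K s) (t + 1))ˣ)

/-- The symbol `{z_0, ..., z_s, y_0, ..., y_t}`. -/
noncomputable def psym : KQ (PRing W V F G) (s + (t + 1) + 1) :=
  symb fun l => Sum.elim (pz W V F G) (py W V F G) ((esum s t).symm l)

/-- The symbol `{z_0, ..., z_s, y_0, ..., y_t}` has an unramified image in the Milnor K-theory of all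
fields `L` with a homomorphism from the coordinate ring. -/
def Unram.{u, v} {K : Type u} [Field K] {s t : ℕ} (W : LP K (s + 1)) (V : LP K (t + 1))
    (F G : Polynomial K) : Prop :=
  ∀ (L : Type v) [Field L] (f : PRing W V F G →+* L), KQ.map _ f (psym W V F G) ∈ Unramified L _

/-- There is a torus in the complex points (over `σ`) of the fibre product, such that the quotient of
the regulator of the symbol `{z_0, ..., z_s, y_0, ..., y_t}` on this torus and of `τ` differs from
`q` by at most `ε`. -/
def HasReg (σ : K →+* ℂ) (τ q ε : ℝ) : Prop :=
  ∃ Γ : Torus (PRing W V F G) (s + (t + 1)), (∀ θ (x : K), Γ.e θ (pcst W V F G x) = σ x) ∧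
    |Γ.reg (psym W V F G) / τ - q| ≤ ε

end ring

end Pool.Agent.N65.TE
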