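import Pool.Agent.N65.TL.Fib
set_option autoImplicit false

/-!
The matrix of the orders of the entries.
-/

namespace Pool.Agent.N65.TE

open Pool.Agent.N65.TL

variable {s t : ℕ}

/-- the matrix of the orders of the `z_i` -/
noncomputable def zm (al v : Fin (s + 1) → ℤ) (i0 : Fin (s + 1)) (N : ℕ) :
    Matrix (Fin (s + 1)) (Fin (s + 1)) ℝ :=
  Matrix.of fun i => Fin.cons ((al i : ℝ) * N) fun l => (bdir v i0 l i : ℝ)

theorem det_zm {al v : Fin (s + 1) → ℤ} (h : 0 < dot al v) {i0 : Fin (s + 1)} (hi0 : v i0 ≠ 0)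
    {N : ℕ} (hN : 0 < N) : (zm al v i0 N).det ≠ 0 := by
  have hk : ((dot al v : ℤ) : ℝ) ≠ 0 := by exact_mod_cast h.ne'
  have hN' : (N : ℝ) ≠ 0 := by exact_mod_cast hN.ne'
  set d : Fin (s + 1) → ℝ := Fin.cons (((dot al v : ℤ) : ℝ) * N) fun _ => 1 with hd
  have h1 : zm al v i0 N = zmat al v i0 * Matrix.diagonal d := by
    ext i j
    rw [Matrix.mul_diagonal]
    unfold zm zmat
    refine Fin.cases ?_ (fun l => ?_) j
    · rw [Matrix.of_apply, Matrix.of_apply, Fin.cons_zero, Fin.cons_zero, hd, Fin.cons_zero]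
      field_simp
    · rw [Matrix.of_apply, Matrix.of_apply, Fin.cons_succ, Fin.cons_succ, hd, Fin.cons_succ,
        mul_one]
  rw [h1, Matrix.det_mul, Matrix.det_diagonal, Fin.prod_univ_succ, hd]
  refine mul_ne_zero (det_zmat h hi0) ?_
  simp only [Fin.cons_zero, Fin.cons_succ, Finset.prod_const_one, mul_one]
  exact mul_ne_zero hk hN'

/-- the columns: the logarithm belongs to the second block, the angle of `x` to the first one -/
def colE (s t : ℕ) : Fin (s + (t + 1) + 1) ≃ Fin (s + 1) ⊕ Fin (t + 1) :=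
  (esum s t).symm.trans (Equiv.swap (Sum.inl 0) (Sum.inr 0))

/-- the matrix of the orders of the entries -/
noncomputable def RE (al v : Fin (s + 1) → ℤ) (i0 : Fin (s + 1)) (be v' : Fin (t + 1) → ℤ)
    (i0' : Fin (t + 1)) (N : ℕ) : Matrix (Fin (s + (t + 1) + 1)) (Fin (s + (t + 1) + 1)) ℝ :=
  (Matrix.fromBlocks (zm al v i0 N) 0 0 (zmat be v' i0')).submatrix (esum s t).symm (colE s t)

variable {al v : Fin (s + 1) → ℤ} {i0 : Fin (s + 1)} {be v' : Fin (t + 1) → ℤ}
  {i0' : Fin (t + 1)} {N : ℕ}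

theorem det_RE (h : 0 < dot al v) (hi0 : v i0 ≠ 0) (h' : 0 < dot be v') (hi0' : v' i0' ≠ 0)
    (hN : 0 < N) : (RE al v i0 be v' i0' N).det ≠ 0 := by
  rw [← isUnit_iff_ne_zero, ← Matrix.isUnit_iff_isUnit_det]
  unfold RE
  rw [Matrix.isUnit_submatrix_equiv, Matrix.isUnit_iff_isUnit_det, isUnit_iff_ne_zero,
    Matrix.det_fromBlocks_zero₂₁]
  exact mul_ne_zero (det_zm h hi0 hN) (det_zmat h' hi0')

theorem colE_zero : colE s t 0 = Sum.inr 0 := by
  unfold colE
  rw [Equiv.trans_apply, ← esum_zero (s := s) (d := t), Equiv.symm_apply_apply,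
    Equiv.swap_apply_left]

theorem colE_castAdd (l : Fin s) : colE s t (Fin.castAdd (t + 1) l).succ = Sum.inl l.succ := by
  unfold colE
  rw [Equiv.trans_apply, ← esum_castAdd, Equiv.symm_apply_apply, Equiv.swap_apply_of_ne_of_ne]
  · intro h
    exact Fin.succ_ne_zero l (Sum.inl_injective h)
  · exact Sum.inl_ne_inr

theorem colE_natAdd_zero : colE s t (Fin.natAdd s (0 : Fin (t + 1))).succ = Sum.inl 0 := by
  unfold colE
  rw [Equiv.trans_apply, ← esum_natAdd, Equiv.symm_apply_apply, Equiv.swap_apply_right]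

theorem colE_natAdd_succ (l : Fin t) :
    colE s t (Fin.natAdd s l.succ).succ = Sum.inr l.succ := by
  unfold colE
  rw [Equiv.trans_apply, ← esum_natAdd, Equiv.symm_apply_apply, Equiv.swap_apply_of_ne_of_ne]
  · exact Sum.inr_ne_inl
  · intro h
    exact Fin.succ_ne_zero l (Sum.inr_injective h)

theorem castAdd_ne_natAdd (l : Fin s) (i : Fin (t + 1)) :
    Fin.castAdd (t + 1) l ≠ Fin.natAdd s i := by
  intro h
  have h1 := congrArg Fin.val h
  rw [Fin.val_castAdd, Fin.val_natAdd] at h1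
  have := l.isLt
  omega

theorem RE_z_zero (i : Fin (s + 1)) : RE al v i0 be v' i0' N (esum s t (Sum.inl i)) 0 = 0 := by
  unfold RE
  rw [Matrix.submatrix_apply, Equiv.symm_apply_apply, colE_zero, Matrix.fromBlocks_apply₁₂]
  rfl

theorem RE_y_zero (i : Fin (t + 1)) : RE al v i0 be v' i0' N (esum s t (Sum.inr i)) 0 =
    (be i : ℝ) / dot be v' := by
  unfold RE
  rw [Matrix.submatrix_apply, Equiv.symm_apply_apply, colE_zero, Matrix.fromBlocks_apply₂₂]
  rfl

theorem RE_z_succ (i : Fin (s + 1)) (j : Fin (s + (t + 1))) :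
    RE al v i0 be v' i0' N (esum s t (Sum.inl i)) j.succ =
      al i * (if j = Fin.natAdd s 0 then (N : ℝ) else 0) +
        ∑ l, if j = Fin.castAdd (t + 1) l then (bdir v i0 l i : ℝ) else 0 := by
  unfold RE
  rw [Matrix.submatrix_apply, Equiv.symm_apply_apply]
  refine Fin.addCases (fun l => ?_) (fun i' => ?_) j
  · rw [colE_castAdd, Matrix.fromBlocks_apply₁₁, if_neg (castAdd_ne_natAdd l 0), mul_zero,
      zero_add, Finset.sum_eq_single l]
    · rw [if_pos rfl]
      rfl
    · intro l' _ hl'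
      rw [if_neg fun h => hl' (Fin.castAdd_injective _ _ h).symm]
    · intro h
      exact absurd (Finset.mem_univ _) h
  · rw [Finset.sum_eq_zero (s := Finset.univ) (f := fun l => if Fin.natAdd s i' =
      Fin.castAdd (t + 1) l then (bdir v i0 l i : ℝ) else 0)
      (fun l _ => if_neg (fun h => castAdd_ne_natAdd l i' h.symm)), add_zero]
    refine Fin.cases ?_ (fun l => ?_) i'
    · rw [colE_natAdd_zero, Matrix.fromBlocks_apply₁₁, if_pos rfl]
      rfl
    · rw [colE_natAdd_succ, Matrix.fromBlocks_apply₁₂, if_neg, mul_zero]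
      · rfl
      · intro h
        exact Fin.succ_ne_zero l (Fin.natAdd_injective _ _ h)

theorem RE_y_succ (i : Fin (t + 1)) (j : Fin (s + (t + 1))) :
    RE al v i0 be v' i0' N (esum s t (Sum.inr i)) j.succ =
      ∑ l : Fin t, if j = Fin.natAdd s l.succ then (bdir v' i0' l i : ℝ) else 0 := by
  unfold RE
  rw [Matrix.submatrix_apply, Equiv.symm_apply_apply]
  refine Fin.addCases (fun l => ?_) (fun i' => ?_) j
  · rw [colE_castAdd, Matrix.fromBlocks_apply₂₁,
      Finset.sum_eq_zero (fun l' _ => if_neg (castAdd_ne_natAdd l _))]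
    rfl
  · refine Fin.cases ?_ (fun l => ?_) i'
    · rw [colE_natAdd_zero, Matrix.fromBlocks_apply₂₁, Finset.sum_eq_zero (fun l' _ => if_neg ?_)]
      · rfl
      · intro h
        exact Fin.succ_ne_zero l' (Fin.natAdd_injective _ _ h).symm
    · rw [colE_natAdd_succ, Matrix.fromBlocks_apply₂₂, Finset.sum_eq_single l]
      · rw [if_pos rfl]
        rfl
      · intro l' _ hl'
        rw [if_neg]
        intro h
        exact hl' (Fin.succ_injective _ (Fin.natAdd_injective _ _ h)).symm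
      · intro h
        exact absurd (Finset.mem_univ _) h

end Pool.Agent.N65.TE
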