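import Pool.Agent.N65.TL.Tor
set_option autoImplicit false

/-!
Roots of functions on tori close to `1`, and Laurent polynomials on circles.
-/

namespace Pool.Agent.N65.TE

open Pool.Agent.TH826.MK

open Pool.Agent.TH826.SX (good_circ lw_circ circ_ne_zero)

open Pool.Agent.N65.TL

theorem exists_small_root {k : ℕ} (hk : 0 < k) {δ : ℝ} (hδ : 0 < δ) :
    ∃ η : ℝ, 0 < η ∧ ∀ (D : ℕ) (u : (Fin D → ℝ) → ℂ), ContDiff ℝ 2 u → (∀ θ, ‖u θ‖ ≤ η) →
      (∀ θ j, ‖fderiv ℝ u θ (Pi.single j 1)‖ ≤ η) →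
      ∃ g : (Fin D → ℝ) → ℂ, Good g ∧ (∀ θ θ', u θ = u θ' → g θ = g θ') ∧
        (∀ θ, |Real.log ‖g θ‖| ≤ δ) ∧ (∀ j θ, ‖lw g j θ‖ ≤ δ) ∧ ∀ θ, g θ ^ k = 1 + u θ := by
  refine ⟨min (1 / 2) (δ / 4), by positivity, fun D u hu hn hd => ?_⟩
  have hk1 : (1 : ℝ) ≤ k := by exact_mod_cast hk
  have hkc : (k : ℂ) ≠ 0 := by exact_mod_cast hk.ne'
  have hn2 : ∀ θ, ‖u θ‖ ≤ 1 / 2 := fun θ => (hn θ).trans (min_le_left _ _)
  have hnδ : ∀ θ, ‖u θ‖ ≤ δ / 4 := fun θ => (hn θ).trans (min_le_right _ _)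
  have hdδ : ∀ θ j, ‖fderiv ℝ u θ (Pi.single j 1)‖ ≤ δ / 4 := fun θ j =>
    (hd θ j).trans (min_le_right _ _)
  have hslit : ∀ θ, 1 + u θ ∈ Complex.slitPlane := fun θ =>
    Complex.mem_slitPlane_of_norm_lt_one ((hn2 θ).trans_lt (by norm_num))
  have hne : ∀ θ, 1 + u θ ≠ 0 := fun θ => Complex.slitPlane_ne_zero (hslit θ)
  have hnorm : ∀ θ, 1 / 2 ≤ ‖1 + u θ‖ := by
    intro θ
    have h1 : ‖(1 : ℂ)‖ - ‖-u θ‖ ≤ ‖(1 : ℂ) - (-u θ)‖ := norm_sub_norm_le _ _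
    rw [norm_neg, sub_neg_eq_add, norm_one] at h1
    linarith [hn2 θ]
  have hlog2 : ContDiff ℝ 2 fun θ => Complex.log (1 + u θ) := by
    rw [contDiff_iff_contDiffAt]
    intro θ
    have h1 : ContDiffAt ℝ 2 Complex.log (1 + u θ) :=
      (Complex.contDiffAt_log (hslit θ)).restrict_scalars ℝ
    exact h1.comp θ (contDiff_const.add hu).contDiffAt
  have hlogc : ContDiff ℝ 2 fun θ => Complex.log (1 + u θ) / k := hlog2.div_const _
  set g : (Fin D → ℝ) → ℂ := fun θ => Complex.exp (Complex.log (1 + u θ) / k) with hg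
  have hgood : Good g := ⟨hlogc.cexp, fun θ => Complex.exp_ne_zero _⟩
  refine ⟨g, hgood, fun θ θ' h => ?_, fun θ => ?_, fun j θ => ?_, fun θ => ?_⟩
  · simp only [hg, h]
  · have h1 : Real.log ‖g θ‖ = (Complex.log (1 + u θ) / k).re := by
      rw [hg, Complex.norm_exp, Real.log_exp]
    rw [h1]
    have h2 : ‖Complex.log (1 + u θ) / k‖ ≤ δ := by
      rw [norm_div, Complex.norm_natCast]
      have h3 := Complex.norm_log_one_add_half_le_self (hn2 θ)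
      calc ‖Complex.log (1 + u θ)‖ / k ≤ ‖Complex.log (1 + u θ)‖ / 1 :=
            div_le_div_of_nonneg_left (norm_nonneg _) one_pos hk1
        _ ≤ δ := by
          rw [div_one]
          linarith [hnδ θ]
    exact (Complex.abs_re_le_norm _).trans h2
  · have h1 : HasFDerivAt u (fderiv ℝ u θ) θ :=
      (hu.differentiable (by norm_num) θ).hasFDerivAt
    have h2 : HasFDerivAt (fun θ => 1 + u θ) (fderiv ℝ u θ) θ := h1.const_add 1
    have hl : HasDerivAt Complex.log ((1 + u θ)⁻¹) (1 + u θ) := Complex.hasDerivAt_log (hslit θ)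
    have h3 : HasFDerivAt (fun θ => Complex.log (1 + u θ)) ((1 + u θ)⁻¹ • fderiv ℝ u θ) θ := by
      have h10 := hl.comp_hasFDerivAt_of_eq θ h2 rfl
      exact h10
    have h4 : HasFDerivAt (fun θ => Complex.log (1 + u θ) / k)
        ((k : ℂ)⁻¹ • ((1 + u θ)⁻¹ • fderiv ℝ u θ)) θ := by
      have h5 := h3.const_mul ((k : ℂ)⁻¹)
      refine h5.congr_of_eventuallyEq (Filter.Eventually.of_forall fun θ => ?_)
      simp only
      rw [div_eq_inv_mul]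
    have h5 : HasFDerivAt g (Complex.exp (Complex.log (1 + u θ) / k) •
        ((k : ℂ)⁻¹ • ((1 + u θ)⁻¹ • fderiv ℝ u θ))) θ := h4.cexp
    have h6 : lw g j θ = (k : ℂ)⁻¹ * ((1 + u θ)⁻¹ * fderiv ℝ u θ (Pi.single j 1)) := by
      unfold lw
      rw [h5.fderiv]
      show (Complex.exp (Complex.log (1 + u θ) / k) * ((k : ℂ)⁻¹ * ((1 + u θ)⁻¹ *
        fderiv ℝ u θ (Pi.single j 1)))) / Complex.exp (Complex.log (1 + u θ) / k) = _
      rw [mul_div_assoc, mul_comm, div_mul_cancel₀ _ (Complex.exp_ne_zero _)]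
    rw [h6, norm_mul, norm_mul, norm_inv, norm_inv, Complex.norm_natCast]
    have h7 : (k : ℝ)⁻¹ ≤ 1 := inv_le_one_of_one_le₀ hk1
    have h8 : ‖1 + u θ‖⁻¹ ≤ 2 := by
      rw [inv_le_comm₀ (by linarith [hnorm θ]) two_pos]
      linarith [hnorm θ]
    have h9 := hdδ θ j
    calc (k : ℝ)⁻¹ * (‖1 + u θ‖⁻¹ * ‖fderiv ℝ u θ (Pi.single j 1)‖)
        ≤ 1 * (2 * (δ / 4)) := by
          refine mul_le_mul h7 (mul_le_mul h8 h9 (norm_nonneg _) (by norm_num)) (by positivity)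
            (by norm_num)
      _ ≤ δ := by linarith
  · simp only [hg]
    rw [← Complex.exp_nat_mul, mul_div_cancel₀ _ hkc, Complex.exp_log (hne θ)]

/-- Laurent polynomials on a circle. -/
noncomputable def lsum {ι : Type*} (I : Finset ι) (c : ι → ℂ) (n : ι → ℤ) (ρ : ℝ) {D : ℕ}
    (j0 : Fin D) (θ : Fin D → ℝ) : ℂ := ∑ i ∈ I, c i * circ ρ (θ j0) ^ (n i)

section lsum

variable {ι : Type*} (I : Finset ι) (c : ι → ℂ) (n : ι → ℤ) {ρ : ℝ} {D : ℕ} (j0 : Fin D)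

theorem contDiff_lsum (hρ : 0 < ρ) : ContDiff ℝ 2 (lsum I c n ρ j0) :=
  ContDiff.sum fun _ _ => contDiff_const.mul (good_zpow (good_circ hρ j0) _).smooth

theorem per_lsum : Per (lsum I c n ρ j0) := by
  intro θ j
  unfold lsum
  refine Finset.sum_congr rfl fun i _ => ?_
  have h := per_circ ρ j0 θ j
  simp only at h
  rw [h]

theorem norm_lsum_le (hρ : 0 < ρ) (θ : Fin D → ℝ) :
    ‖lsum I c n ρ j0 θ‖ ≤ ∑ i ∈ I, ‖c i‖ * ρ ^ (n i) := by
  unfold lsum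
  refine (norm_sum_le _ _).trans (Finset.sum_le_sum fun i _ => ?_)
  rw [norm_mul, norm_zpow, norm_circ hρ.le]

theorem norm_fderiv_lsum_le (hρ : 0 < ρ) (θ : Fin D → ℝ) (j : Fin D) :
    ‖fderiv ℝ (lsum I c n ρ j0) θ (Pi.single j 1)‖ ≤
      ∑ i ∈ I, ‖c i‖ * (2 * Real.pi * |(n i : ℝ)| * ρ ^ (n i)) := by
  have hpi := Real.pi_pos
  have hg : ∀ i, Good fun θ : Fin D → ℝ => circ ρ (θ j0) ^ (n i) := fun i =>
    good_zpow (good_circ hρ j0) _
  have hd : ∀ i, DifferentiableAt ℝ (fun θ : Fin D → ℝ => circ ρ (θ j0) ^ (n i)) θ := fun i =>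
    (hg i).smooth.differentiable (by norm_num) θ
  have h1 : fderiv ℝ (lsum I c n ρ j0) θ = ∑ i ∈ I,
      fderiv ℝ (fun θ => c i * circ ρ (θ j0) ^ (n i)) θ := by
    have h2 : lsum I c n ρ j0 = fun θ => ∑ i ∈ I, c i * circ ρ (θ j0) ^ (n i) := rfl
    rw [h2]
    exact fderiv_fun_sum fun i _ => (hd i).const_mul (c i)
  rw [h1, ContinuousLinearMap.sum_apply]
  refine (norm_sum_le _ _).trans (Finset.sum_le_sum fun i _ => ?_)
  have h3 : fderiv ℝ (fun θ => c i * circ ρ (θ j0) ^ (n i)) θ (Pi.single j 1) =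
      c i * (lw (fun θ : Fin D → ℝ => circ ρ (θ j0) ^ (n i)) j θ * circ ρ (θ j0) ^ (n i)) := by
    rw [fderiv_const_mul (hd i)]
    unfold lw
    rw [div_mul_cancel₀ _ ((hg i).ne_zero θ)]
    rfl
  rw [h3, norm_mul, norm_mul, norm_zpow, norm_circ hρ.le, lw_zpow (good_circ hρ j0), norm_mul,
    Complex.norm_intCast, lw_circ hρ]
  refine mul_le_mul_of_nonneg_left ?_ (norm_nonneg _)
  refine mul_le_mul_of_nonneg_right ?_ (by positivity)
  have h4 : ‖(if j = j0 then 2 * Real.pi * Complex.I else 0 : ℂ)‖ ≤ 2 * Real.pi := by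
    split_ifs
    · rw [norm_mul, norm_mul, Complex.norm_I, Complex.norm_real, Complex.norm_ofNat, mul_one,
        Real.norm_eq_abs, abs_of_pos Real.pi_pos]
    · rw [norm_zero]
      positivity
  calc |(n i : ℝ)| * ‖(if j = j0 then 2 * Real.pi * Complex.I else 0 : ℂ)‖
      ≤ |(n i : ℝ)| * (2 * Real.pi) := mul_le_mul_of_nonneg_left h4 (abs_nonneg _)
    _ = _ := by ring

end lsum

end Pool.Agent.N65.TE
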