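import Pool.Agent.N65.TE.Points
import Pool.Agent.N65.TE.Root
import Pool.Agent.N65.TE.Mat
set_option autoImplicit false

/-!
The regulators of the symbols on the fibre products.
-/

namespace Pool.Agent.N65.TE

open Filter Topology

open Pool.Agent.TH826.MK

open Pool.Agent.TH826.SX (pairing_close good_circ lw_circ circ_ne_zero)

open Pool.Agent.N65.TL

open Pool.Agent.N65.TD

variable {K : Type*} [Field K] {s t : ℕ}

theorem eval_circ (σ : K →+* ℂ) {F : Polynomial K} (hF : F.Monic) (k : ℕ) {ρ : ℝ} (hρ : 0 < ρ)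
    {D : ℕ} (j0 : Fin D) (θ : Fin D → ℝ) :
    F.eval₂ σ (circ ρ (θ j0) ^ k) = (circ ρ (θ j0) ^ (F.natDegree : ℤ)) ^ k *
      (1 + lsum (Finset.range F.natDegree) (fun i => σ (F.coeff i))
        (fun i => (k : ℤ) * ((i : ℤ) - F.natDegree)) ρ j0 θ) := by
  have h0 : circ ρ (θ j0) ≠ 0 := circ_ne_zero hρ _
  rw [Polynomial.eval₂_eq_sum_range, Finset.sum_range_succ, hF.coeff_natDegree, map_one, one_mul,
    mul_add, mul_one, add_comm]
  congr 1
  · rw [zpow_natCast, ← pow_mul, ← pow_mul, mul_comm]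
  · unfold lsum
    rw [Finset.mul_sum]
    refine Finset.sum_congr rfl fun i _ => ?_
    have h1 : (circ ρ (θ j0) ^ k) ^ i = (circ ρ (θ j0) ^ (F.natDegree : ℤ)) ^ k *
        circ ρ (θ j0) ^ ((k : ℤ) * ((i : ℤ) - F.natDegree)) := by
      rw [← zpow_natCast (circ ρ (θ j0) ^ (F.natDegree : ℤ)) k, ← zpow_mul, ← zpow_add₀ h0,
        ← pow_mul, ← zpow_natCast]
      congr 1
      push_cast
      ring
    rw [h1]
    ring

theorem exists_torus (σ : K →+* ℂ) {W : LP K (s + 1)} {V : LP K (t + 1)} {F G : Polynomial K}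
    (hF : F.Monic) (hN : 0 < F.natDegree) {al v : Fin (s + 1) → ℤ} (hv : W.coeff v ≠ 0)
    (hpos : 0 < dot al v) (hmax : ∀ m, W.coeff m ≠ 0 → m ≠ v → dot al m < dot al v)
    (i0 : Fin (s + 1)) {be v' : Fin (t + 1) → ℤ} (hv' : V.coeff v' ≠ 0) (hpos' : 0 < dot be v')
    (hmax' : ∀ m, V.coeff m ≠ 0 → m ≠ v' → dot be m < dot be v') (i0' : Fin (t + 1)) {ε : ℝ}
    (hε : 0 < ε) : ∃ C : ℝ, ∀ c : K, C ≤ ‖σ c‖ →
      HasReg W V F (G + Polynomial.C c) σ (Real.log ‖σ c‖)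
        ((2 * Real.pi) ^ (s + (t + 1)) * (RE al v i0 be v' i0' F.natDegree).det) ε := by
  classical
  have hpi := Real.pi_pos
  have hnpi : ‖(2 * Real.pi * Complex.I : ℂ)‖ = 2 * Real.pi := by
    rw [norm_mul, norm_mul, Complex.norm_I, Complex.norm_real, Complex.norm_ofNat, mul_one,
      Real.norm_eq_abs, abs_of_pos Real.pi_pos]
  set N : ℕ := F.natDegree with hNdef
  have hNR : (1 : ℝ) ≤ N := by exact_mod_cast hN
  set k1 : ℕ := (dot al v).toNat with hk1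
  have hk1z : (k1 : ℤ) = dot al v := Int.toNat_of_nonneg hpos.le
  have hk10 : 0 < k1 := by omega
  have hk1R : (1 : ℝ) ≤ k1 := by exact_mod_cast hk10
  set k2 : ℕ := (dot be v').toNat with hk2
  have hk2z : (k2 : ℤ) = dot be v' := Int.toNat_of_nonneg hpos'.le
  have hk20 : 0 < k2 := by omega
  have hk2R : (0 : ℝ) < k2 := by exact_mod_cast hk20
  have hk2R1 : (1 : ℝ) ≤ k2 := by exact_mod_cast hk20
  have hk2zR : ((dot be v' : ℤ) : ℝ) = k2 := by
    rw [← hk2z]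
    simp
  have hσv : σ (W.coeff v) ≠ 0 := (map_ne_zero σ).2 hv
  have hσv' : σ (V.coeff v') ≠ 0 := (map_ne_zero σ).2 hv'
  obtain ⟨δ, hδ, hclose⟩ := pairing_close (RE al v i0 be v' i0' N) hε
  set A : ℝ := 1 + ∑ i, |(al i : ℝ)| + ∑ i, |(be i : ℝ)| with hA
  have hsa : 0 ≤ ∑ i, |(al i : ℝ)| := Finset.sum_nonneg fun i _ => abs_nonneg _
  have hsb : 0 ≤ ∑ i, |(be i : ℝ)| := Finset.sum_nonneg fun i _ => abs_nonneg _
  have hA1 : 1 ≤ A := by linarith
  have hAi : ∀ i, |(al i : ℝ)| ≤ A := by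
    intro i
    have h2 : |(al i : ℝ)| ≤ ∑ i, |(al i : ℝ)| :=
      Finset.single_le_sum (f := fun i => |(al i : ℝ)|) (fun i _ => abs_nonneg _)
        (Finset.mem_univ i)
    linarith
  have hBi : ∀ i, |(be i : ℝ)| ≤ A := by
    intro i
    have h2 : |(be i : ℝ)| ≤ ∑ i, |(be i : ℝ)| :=
      Finset.single_le_sum (f := fun i => |(be i : ℝ)|) (fun i _ => abs_nonneg _)
        (Finset.mem_univ i)
    linarith
  set δ0 : ℝ := δ / (4 * A) with hδ0
  have hδ0pos : 0 < δ0 := div_pos hδ (by linarith)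
  have hδle : 3 * (A * δ0) < δ := by
    have h2 : δ = 4 * (A * δ0) := by
      rw [hδ0]
      field_simp
    have h3 : 0 < A * δ0 := by positivity
    linarith
  have hδA : δ0 ≤ A * δ0 := le_mul_of_one_le_left hδ0pos.le hA1
  obtain ⟨η1, hη1, hroot1⟩ := exists_small_root hk10 hδ0pos
  obtain ⟨η2, hη2, hroot2⟩ := exists_small_root hk20 hδ0pos
  set B1 : ℝ := 2 * Real.pi * N + δ0 with hB1
  have hB10 : 0 ≤ B1 := by positivity
  obtain ⟨R1, hR1, hz1⟩ := exists_z σ hv hpos hmax i0 hB10 hδ0pos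
  obtain ⟨R2, hR2, hz2⟩ := exists_z σ hv' hpos' hmax' i0' hδ0pos.le hδ0pos
  obtain ⟨κ1, hκ1⟩ := IsAlgClosed.exists_pow_nat_eq (1 / σ (W.coeff v)) hk10
  have hκ10 : κ1 ≠ 0 := by
    rintro rfl
    rw [zero_pow hk10.ne'] at hκ1
    exact (one_div_ne_zero hσv) hκ1.symm
  set j0 : Fin (s + (t + 1)) := Fin.natAdd s (0 : Fin (t + 1)) with hj0
  -- the radius
  set S0 : ℝ := ∑ i ∈ Finset.range N, ‖σ (F.coeff i)‖ * (1 + 2 * Real.pi * (k1 * N)) with hS0
  have hS00 : 0 ≤ S0 := Finset.sum_nonneg fun i _ => by positivity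
  set L1 : ℝ := Real.log R1 + |Real.log ‖κ1‖| + δ0 with hL1
  set ρ : ℝ := 1 + S0 / η1 + Real.exp L1 with hρdef
  have hSη : 0 ≤ S0 / η1 := by positivity
  have hρ1 : 1 ≤ ρ := by linarith [Real.exp_pos L1]
  have hρ : 0 < ρ := by linarith
  have hρL : L1 ≤ Real.log ρ := by
    rw [Real.le_log_iff_exp_le hρ]
    linarith
  have hρS : S0 / ρ ≤ η1 := by
    rw [div_le_iff₀ hρ]
    have h1 : S0 / η1 ≤ ρ := by linarith [Real.exp_pos L1]
    rw [div_le_iff₀ hη1] at h1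
    linarith
  have hlogρ : 0 ≤ Real.log ρ := Real.log_nonneg hρ1
  have hpw : ∀ i ∈ Finset.range N, ρ ^ ((k1 : ℤ) * ((i : ℤ) - N)) ≤ ρ⁻¹ := by
    intro i hi
    have h1 : (i : ℤ) < N := by exact_mod_cast Finset.mem_range.1 hi
    rw [← zpow_neg_one]
    refine zpow_le_zpow_right₀ hρ1 ?_
    have h2 : (1 : ℤ) ≤ k1 := by exact_mod_cast hk10
    nlinarith
  set u1 : (Fin (s + (t + 1)) → ℝ) → ℂ := lsum (Finset.range N) (fun i => σ (F.coeff i))
    (fun i => (k1 : ℤ) * ((i : ℤ) - N)) ρ j0 with hu1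
  have hu1n : ∀ θ, ‖u1 θ‖ ≤ η1 := by
    intro θ
    refine (norm_lsum_le _ _ _ j0 hρ θ).trans (le_trans ?_ hρS)
    rw [hS0, Finset.sum_div]
    refine Finset.sum_le_sum fun i hi => ?_
    rw [div_eq_mul_inv, mul_assoc]
    refine mul_le_mul_of_nonneg_left ((hpw i hi).trans ?_) (norm_nonneg _)
    refine le_mul_of_one_le_left (by positivity) ?_
    have : 0 ≤ 2 * Real.pi * (k1 * N) := by positivity
    linarith
  have hu1d : ∀ θ j, ‖fderiv ℝ u1 θ (Pi.single j 1)‖ ≤ η1 := by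
    intro θ j
    refine (norm_fderiv_lsum_le _ _ _ j0 hρ θ j).trans (le_trans ?_ hρS)
    rw [hS0, Finset.sum_div]
    refine Finset.sum_le_sum fun i hi => ?_
    rw [mul_div_assoc, div_eq_mul_inv]
    refine mul_le_mul_of_nonneg_left ?_ (norm_nonneg _)
    refine mul_le_mul ?_ (hpw i hi) (by positivity) (by positivity)
    have h1 : |(((k1 : ℤ) * ((i : ℤ) - N) : ℤ) : ℝ)| ≤ k1 * N := by
      push_cast
      rw [abs_mul, abs_of_nonneg (by positivity : (0 : ℝ) ≤ k1)]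
      refine mul_le_mul_of_nonneg_left ?_ (by positivity)
      have h2 : (i : ℝ) < N := by exact_mod_cast Finset.mem_range.1 hi
      rw [abs_of_nonpos (by linarith)]
      have : (0 : ℝ) ≤ i := by positivity
      linarith
    have h2 : 2 * Real.pi * |(((k1 : ℤ) * ((i : ℤ) - N) : ℤ) : ℝ)| ≤ 2 * Real.pi * (k1 * N) :=
      mul_le_mul_of_nonneg_left h1 (by positivity)
    linarith
  obtain ⟨g1, hg1, hdep1, hlog1, hlw1, heq1⟩ := hroot1 _ u1 (contDiff_lsum _ _ _ j0 hρ) hu1n hu1d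
  have hcg : Good fun θ : Fin (s + (t + 1)) → ℝ => circ ρ (θ j0) ^ (N : ℤ) :=
    good_zpow (good_circ hρ j0) _
  set Λ1 : (Fin (s + (t + 1)) → ℝ) → ℂ := fun θ => κ1 * (circ ρ (θ j0) ^ (N : ℤ) * g1 θ) with hΛ1
  have hΛ1g : Good Λ1 := (good_const hκ10).mul (hcg.mul hg1)
  have hΛ1p : Per Λ1 := by
    intro θ j
    have h1 : g1 (θ + Pi.single j 1) = g1 θ := hdep1 _ _ (per_lsum _ _ _ j0 θ j)
    have h2 : circ ρ ((θ + Pi.single j 1 : Fin (s + (t + 1)) → ℝ) j0) = circ ρ (θ j0) :=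
      per_circ ρ j0 θ j
    simp only [hΛ1]
    rw [h1, h2]
  have hΛ1log : ∀ θ, Real.log ‖Λ1 θ‖ = Real.log ‖κ1‖ + (N * Real.log ρ + Real.log ‖g1 θ‖) := by
    intro θ
    simp only [hΛ1]
    rw [norm_mul, norm_mul, Real.log_mul (norm_ne_zero_iff.2 hκ10)
      (mul_ne_zero (norm_ne_zero_iff.2 (hcg.ne_zero θ)) (norm_ne_zero_iff.2 (hg1.ne_zero θ))),
      Real.log_mul (norm_ne_zero_iff.2 (hcg.ne_zero θ)) (norm_ne_zero_iff.2 (hg1.ne_zero θ)),
      norm_zpow, norm_circ hρ.le, Real.log_zpow]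
    push_cast
    ring
  have hΛ1R : ∀ θ, R1 ≤ ‖Λ1 θ‖ := by
    intro θ
    have h1 := (abs_le.1 (hlog1 θ)).1
    have h2 := neg_abs_le (Real.log ‖κ1‖)
    have h3 : Real.log ρ ≤ N * Real.log ρ := le_mul_of_one_le_left hlogρ hNR
    have h4 : Real.log R1 ≤ Real.log ‖Λ1 θ‖ := by
      rw [hΛ1log θ]
      linarith
    exact (Real.log_le_log_iff (by linarith) (norm_pos_iff.2 (hΛ1g.ne_zero θ))).1 h4
  set CΛ : ℝ := |Real.log ‖κ1‖| + N * Real.log ρ + δ0 with hCΛ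
  have hCΛ0 : 0 ≤ CΛ := by positivity
  have hΛ1abs : ∀ θ, |Real.log ‖Λ1 θ‖| ≤ CΛ := by
    intro θ
    rw [hΛ1log θ]
    have h1 := hlog1 θ
    refine (abs_add_le _ _).trans ?_
    rw [hCΛ, add_assoc]
    refine add_le_add le_rfl ((abs_add_le _ _).trans (add_le_add ?_ h1))
    rw [abs_of_nonneg (by positivity)]
  have hΛ1lw : ∀ j θ, ‖lw Λ1 j θ - 2 * Real.pi * Complex.I * (if j = j0 then (N : ℂ) else 0)‖ ≤
      δ0 := by
    intro j θ
    have h1 := lw_mul (good_const (d := s + (t + 1)) hκ10) (hcg.mul hg1) j θ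
    rw [lw_const, zero_add, lw_mul hcg hg1, lw_zpow (good_circ hρ j0), lw_circ hρ] at h1
    have h2 : lw Λ1 j θ = _ := h1
    rw [h2]
    have h3 : ((N : ℤ) : ℂ) * (if j = j0 then 2 * Real.pi * Complex.I else 0) + lw g1 j θ -
        2 * Real.pi * Complex.I * (if j = j0 then (N : ℂ) else 0) = lw g1 j θ := by
      split_ifs
      · push_cast
        ring
      · ring
    rw [h3]
    exact hlw1 j θ
  have hΛ1B : ∀ j θ, ‖lw Λ1 j θ‖ ≤ B1 := by
    intro j θ
    have h1 := norm_sub_norm_le (lw Λ1 j θ)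
      (2 * Real.pi * Complex.I * (if j = j0 then (N : ℂ) else 0))
    have h2 := hΛ1lw j θ
    have h3 : ‖(2 * Real.pi * Complex.I * (if j = j0 then (N : ℂ) else 0) : ℂ)‖ ≤
        2 * Real.pi * N := by
      rw [norm_mul, hnpi]
      refine mul_le_mul_of_nonneg_left ?_ (by positivity)
      split_ifs
      · rw [Complex.norm_natCast]
      · rw [norm_zero]
        positivity
    rw [hB1]
    linarith
  set X : (Fin (s + (t + 1)) → ℝ) → ℂ := fun θ => circ ρ (θ j0) ^ k1 with hX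
  have hXc : ContDiff ℝ 2 X := (good_circ hρ j0).smooth.pow k1
  have hXp : ∀ θ j, X (θ + Pi.single j 1) = X θ := by
    intro θ j
    have h2 : circ ρ ((θ + Pi.single j 1 : Fin (s + (t + 1)) → ℝ) j0) = circ ρ (θ j0) :=
      per_circ ρ j0 θ j
    simp only [hX]
    rw [h2]
  have hΛ1k : ∀ θ, σ (W.coeff v) * Λ1 θ ^ k1 = F.eval₂ σ (X θ) := by
    intro θ
    have h1 := eval_circ σ hF k1 hρ j0 θ
    have h2 : F.eval₂ σ (X θ) = _ := h1
    rw [h2]
    have h3 := heq1 θ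
    simp only [hΛ1]
    rw [mul_pow, mul_pow, hκ1, h3]
    field_simp
    rfl
  obtain ⟨Z, hZg, hZp, hZlog, hZlw, hZeq⟩ := hz1 (s + (t + 1)) (Fin.castAdd (t + 1)) Λ1 hΛ1g
    hΛ1p hΛ1R hΛ1B
  -- constants
  set MG : ℝ := ∑ i ∈ Finset.range (G.natDegree + 1), ‖σ (G.coeff i)‖ *
    ((1 + 2 * Real.pi * (k1 * i)) * ρ ^ ((k1 : ℤ) * i)) with hMG
  have hMG0 : 0 ≤ MG := Finset.sum_nonneg fun i _ => by positivity
  set C2 : ℝ := |Real.log ‖σ (V.coeff v')‖| + δ0 with hC2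
  have hC20 : 0 ≤ C2 := by positivity
  have hlogR2 : 0 ≤ Real.log R2 := Real.log_nonneg hR2
  set M : ℝ := (A * CΛ + δ0) / δ0 + (A * C2 + δ0) / δ0 + k2 * (Real.log R2 + C2) + 1 with hM
  have hM1 : 0 ≤ (A * CΛ + δ0) / δ0 := by positivity
  have hM2 : 0 ≤ (A * C2 + δ0) / δ0 := by positivity
  have hM3 : 0 ≤ k2 * (Real.log R2 + C2) := by positivity
  have hMGη : 0 ≤ MG / η2 := by positivity
  refine ⟨Real.exp M + 1 + MG / η2, fun c hc => ?_⟩
  have hln : 0 < ‖σ c‖ := by linarith [Real.exp_pos M]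
  have hc0 : σ c ≠ 0 := norm_pos_iff.1 hln
  set T : ℝ := Real.log ‖σ c‖ with hT
  have hTM : M ≤ T := by
    rw [hT, Real.le_log_iff_exp_le hln]
    linarith
  have hTpos : 0 < T := by linarith
  have hT0 : T ≠ 0 := hTpos.ne'
  have hMGc : MG / ‖σ c‖ ≤ η2 := by
    rw [div_le_iff₀ hln]
    have h1 : MG / η2 ≤ ‖σ c‖ := by linarith [Real.exp_pos M]
    rw [div_le_iff₀ hη2] at h1
    linarith
  set u2 : (Fin (s + (t + 1)) → ℝ) → ℂ := lsum (Finset.range (G.natDegree + 1))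
    (fun i => σ (G.coeff i) / σ c) (fun i => (k1 : ℤ) * i) ρ j0 with hu2
  have hu2n : ∀ θ, ‖u2 θ‖ ≤ η2 := by
    intro θ
    refine (norm_lsum_le _ _ _ j0 hρ θ).trans (le_trans ?_ hMGc)
    rw [hMG, Finset.sum_div]
    refine Finset.sum_le_sum fun i _ => ?_
    rw [norm_div, div_mul_eq_mul_div]
    refine div_le_div_of_nonneg_right ?_ (norm_nonneg _)
    refine mul_le_mul_of_nonneg_left ?_ (norm_nonneg _)
    refine le_mul_of_one_le_left (by positivity) ?_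
    have : 0 ≤ 2 * Real.pi * (k1 * (i : ℝ)) := by positivity
    linarith
  have hu2d : ∀ θ j, ‖fderiv ℝ u2 θ (Pi.single j 1)‖ ≤ η2 := by
    intro θ j
    refine (norm_fderiv_lsum_le _ _ _ j0 hρ θ j).trans (le_trans ?_ hMGc)
    rw [hMG, Finset.sum_div]
    refine Finset.sum_le_sum fun i _ => ?_
    rw [norm_div, div_mul_eq_mul_div]
    refine div_le_div_of_nonneg_right ?_ (norm_nonneg _)
    refine mul_le_mul_of_nonneg_left ?_ (norm_nonneg _)
    refine mul_le_mul_of_nonneg_right ?_ (by positivity)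
    have h1 : |((((k1 : ℤ) * (i : ℤ)) : ℤ) : ℝ)| = k1 * i := by
      push_cast
      exact abs_of_nonneg (by positivity)
    rw [h1]
    linarith
  obtain ⟨g2, hg2, hdep2, hlog2, hlw2, heq2⟩ := hroot2 _ u2 (contDiff_lsum _ _ _ j0 hρ) hu2n hu2d
  obtain ⟨κ2, hκ2⟩ := IsAlgClosed.exists_pow_nat_eq (σ c / σ (V.coeff v')) hk20
  have hκ20 : κ2 ≠ 0 := by
    rintro rfl
    rw [zero_pow hk20.ne'] at hκ2
    exact (div_ne_zero hc0 hσv') hκ2.symm
  have hlogκ : Real.log ‖κ2‖ = (T - Real.log ‖σ (V.coeff v')‖) / k2 := by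
    have h1 : (k2 : ℝ) * Real.log ‖κ2‖ = T - Real.log ‖σ (V.coeff v')‖ := by
      rw [← Real.log_pow, ← norm_pow, hκ2, norm_div, Real.log_div hln.ne'
        (norm_ne_zero_iff.2 hσv')]
    rw [← h1]
    field_simp
  set Λ2 : (Fin (s + (t + 1)) → ℝ) → ℂ := fun θ => κ2 * g2 θ with hΛ2
  have hΛ2g : Good Λ2 := (good_const hκ20).mul hg2
  have hΛ2p : Per Λ2 := by
    intro θ j
    have h1 : g2 (θ + Pi.single j 1) = g2 θ := hdep2 _ _ (per_lsum _ _ _ j0 θ j)
    simp only [hΛ2]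
    rw [h1]
  have hΛ2log : ∀ θ, |Real.log ‖Λ2 θ‖ - T / k2| ≤ C2 := by
    intro θ
    have h1 : Real.log ‖Λ2 θ‖ = Real.log ‖κ2‖ + Real.log ‖g2 θ‖ := by
      simp only [hΛ2]
      rw [norm_mul, Real.log_mul (norm_ne_zero_iff.2 hκ20) (norm_ne_zero_iff.2 (hg2.ne_zero θ))]
    rw [h1, hlogκ]
    have h2 : (T - Real.log ‖σ (V.coeff v')‖) / k2 + Real.log ‖g2 θ‖ - T / k2 =
        -(Real.log ‖σ (V.coeff v')‖ / k2) + Real.log ‖g2 θ‖ := by ring
    rw [h2]
    refine (abs_add_le _ _).trans (add_le_add ?_ (hlog2 θ))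
    rw [abs_neg, abs_div, abs_of_pos hk2R]
    exact div_le_self (abs_nonneg _) hk2R1
  have hΛ2R : ∀ θ, R2 ≤ ‖Λ2 θ‖ := by
    intro θ
    have h1 := (abs_le.1 (hΛ2log θ)).1
    have h2 : Real.log R2 ≤ Real.log ‖Λ2 θ‖ := by
      have h3 : Real.log R2 + C2 ≤ T / k2 := by
        rw [le_div_iff₀ hk2R]
        linarith
      linarith
    exact (Real.log_le_log_iff (by linarith) (norm_pos_iff.2 (hΛ2g.ne_zero θ))).1 h2
  have hΛ2lw : ∀ j θ, ‖lw Λ2 j θ‖ ≤ δ0 := by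
    intro j θ
    have h1 := lw_mul (good_const (d := s + (t + 1)) hκ20) hg2 j θ
    rw [lw_const, zero_add] at h1
    have h2 : lw Λ2 j θ = _ := h1
    rw [h2]
    exact hlw2 j θ
  have hΛ2k : ∀ θ, σ (V.coeff v') * Λ2 θ ^ k2 = (G + Polynomial.C c).eval₂ σ (X θ) := by
    intro θ
    have h1 : G.eval₂ σ (X θ) = σ c * u2 θ := by
      rw [Polynomial.eval₂_eq_sum_range, hu2]
      unfold lsum
      rw [Finset.mul_sum]
      refine Finset.sum_congr rfl fun i _ => ?_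
      simp only [hX]
      rw [← pow_mul, ← mul_assoc, mul_div_cancel₀ _ hc0, ← zpow_natCast]
      push_cast
      rfl
    rw [Polynomial.eval₂_add, Polynomial.eval₂_C, h1]
    have h3 := heq2 θ
    simp only [hΛ2]
    rw [mul_pow, hκ2, h3]
    field_simp
    ring
  obtain ⟨Y, hYg, hYp, hYlog, hYlw, hYeq⟩ := hz2 (s + (t + 1)) (fun l => Fin.natAdd s l.succ) Λ2
    hΛ2g hΛ2p hΛ2R hΛ2lw
  have hPt : ∀ θ, PPt σ W V F (G + Polynomial.C c) (X θ) (fun i => Z i θ) fun i => Y i θ :=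
    fun θ =>
    { nez := fun i => (hZg i).ne_zero θ
      ney := fun i => (hYg i).ne_zero θ
      eqz := (hZeq θ).trans (hΛ1k θ)
      eqy := (hYeq θ).trans (hΛ2k θ) }
  set Γ := mkP hXc hZg hYg hPt hXp hZp hYp with hΓ
  refine ⟨Γ, fun θ x => (hPt θ).ev_cst x, ?_⟩
  unfold psym
  rw [Torus.reg_symb]
  set ent : Fin (s + (t + 1) + 1) → (PRing W V F (G + Polynomial.C c))ˣ := fun l =>
    Sum.elim (pz W V F (G + Polynomial.C c)) (py W V F (G + Polynomial.C c))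
      ((esum s t).symm l) with hent
  have hzfn : ∀ i, Γ.fn (ent (esum s t (Sum.inl i)) : PRing W V F (G + Polynomial.C c)) = Z i := by
    intro i
    funext θ
    simp only [hent, Equiv.symm_apply_apply, Sum.elim_inl]
    exact (hPt θ).ev_z i
  have hyfn : ∀ i, Γ.fn (ent (esum s t (Sum.inr i)) : PRing W V F (G + Polynomial.C c)) = Y i := by
    intro i
    funext θ
    simp only [hent, Equiv.symm_apply_apply, Sum.elim_inr]
    exact (hPt θ).ev_y i
  have hite : ∀ (P : Prop) [Decidable P] (x : ℝ),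
      ((if P then x else 0 : ℝ) : ℂ) = if P then (x : ℂ) else 0 := by
    intro P _ x
    split_ifs <;> simp
  refine hclose _ _ hT0 (fun l => Γ.good _) (fun l θ => ?_) (fun l j θ => ?_)
  · obtain ⟨r, rfl⟩ := (esum s t).surjective l
    rcases r with i | i
    · rw [RE_z_zero, congrFun (hzfn i) θ, sub_zero]
      refine lt_of_le_of_lt ?_ hδle
      have h1 := hZlog i θ
      have h2 := hΛ1abs θ
      have h3 : Real.log ‖Z i θ‖ = (Real.log ‖Z i θ‖ - al i * Real.log ‖Λ1 θ‖) +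
          al i * Real.log ‖Λ1 θ‖ := by ring
      rw [h3, abs_div, abs_of_pos hTpos, div_le_iff₀ hTpos]
      refine (abs_add_le _ _).trans ?_
      rw [abs_mul]
      have h4 : |(al i : ℝ)| * |Real.log ‖Λ1 θ‖| ≤ A * CΛ :=
        mul_le_mul (hAi i) h2 (abs_nonneg _) (by linarith)
      have h5 : (A * CΛ + δ0) / δ0 ≤ T := by linarith
      rw [div_le_iff₀ hδ0pos] at h5
      have h6 : T * δ0 ≤ 3 * (A * δ0) * T := by
        have : δ0 ≤ 3 * (A * δ0) := by linarith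
        nlinarith
      linarith
    · rw [RE_y_zero, congrFun (hyfn i) θ, hk2zR]
      refine lt_of_le_of_lt ?_ hδle
      have h1 := hYlog i θ
      have h2 := hΛ2log θ
      have h3 : Real.log ‖Y i θ‖ / T - be i / k2 =
          ((Real.log ‖Y i θ‖ - be i * Real.log ‖Λ2 θ‖) +
            be i * (Real.log ‖Λ2 θ‖ - T / k2)) / T := by
        field_simp
        ring
      rw [h3, abs_div, abs_of_pos hTpos, div_le_iff₀ hTpos]
      refine (abs_add_le _ _).trans ?_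
      rw [abs_mul]
      have h4 : |(be i : ℝ)| * |Real.log ‖Λ2 θ‖ - T / k2| ≤ A * C2 :=
        mul_le_mul (hBi i) h2 (abs_nonneg _) (by linarith)
      have h5 : (A * C2 + δ0) / δ0 ≤ T := by linarith
      rw [div_le_iff₀ hδ0pos] at h5
      have h6 : T * δ0 ≤ 3 * (A * δ0) * T := by
        have : δ0 ≤ 3 * (A * δ0) := by linarith
        nlinarith
      linarith
  · obtain ⟨r, rfl⟩ := (esum s t).surjective l
    rcases r with i | i
    · rw [RE_z_succ, hzfn i]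
      refine lt_of_le_of_lt ?_ hδle
      have h1 := hZlw i j θ
      have h2 := hΛ1lw j θ
      simp only [Complex.ofReal_add, Complex.ofReal_mul, Complex.ofReal_sum, hite,
        Complex.ofReal_natCast, Complex.ofReal_intCast]
      have e1 : lw (Z i) j θ - 2 * Real.pi * Complex.I *
          (al i * (if j = Fin.natAdd s 0 then (N : ℂ) else 0) +
            ∑ l, if j = Fin.castAdd (t + 1) l then (bdir v i0 l i : ℂ) else 0) =
          (lw (Z i) j θ - (al i * lw Λ1 j θ + 2 * Real.pi * Complex.I *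
            ∑ l, if j = Fin.castAdd (t + 1) l then (bdir v i0 l i : ℂ) else 0)) +
          al i * (lw Λ1 j θ - 2 * Real.pi * Complex.I * (if j = j0 then (N : ℂ) else 0)) := by
        rw [hj0]
        ring
      rw [e1]
      refine (norm_add_le _ _).trans ?_
      rw [norm_mul, Complex.norm_intCast]
      have h4 : |(al i : ℝ)| * ‖lw Λ1 j θ - 2 * Real.pi * Complex.I *
          (if j = j0 then (N : ℂ) else 0)‖ ≤ A * δ0 :=
        mul_le_mul (hAi i) h2 (norm_nonneg _) (by linarith)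
      linarith
    · rw [RE_y_succ, hyfn i]
      refine lt_of_le_of_lt ?_ hδle
      have h1 := hYlw i j θ
      have h2 := hΛ2lw j θ
      simp only [Complex.ofReal_sum, hite, Complex.ofReal_intCast]
      have e1 : lw (Y i) j θ - 2 * Real.pi * Complex.I *
          (∑ l : Fin t, if j = Fin.natAdd s l.succ then (bdir v' i0' l i : ℂ) else 0) =
          (lw (Y i) j θ - (be i * lw Λ2 j θ + 2 * Real.pi * Complex.I *
            ∑ l : Fin t, if j = Fin.natAdd s l.succ then (bdir v' i0' l i : ℂ) else 0)) +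
          be i * lw Λ2 j θ := by
        ring
      rw [e1]
      refine (norm_add_le _ _).trans ?_
      rw [norm_mul, Complex.norm_intCast]
      have h4 : |(be i : ℝ)| * ‖lw Λ2 j θ‖ ≤ A * δ0 :=
        mul_le_mul (hBi i) h2 (norm_nonneg _) (by linarith)
      linarith

/-- The regulators. -/
theorem exists_reg {W : LP K (s + 1)} {V : LP K (t + 1)} (hW : Interior W) (hV : Interior V)
    {F G : Polynomial K} (hF : F.Monic) (hN : 0 < F.natDegree) (σ : K →+* ℂ) :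
    ∃ q : ℝ, q ≠ 0 ∧ ∀ ε : ℝ, 0 < ε → ∃ C : ℝ, ∀ c : K, C ≤ ‖σ c‖ →
      HasReg W V F (G + Polynomial.C c) σ (Real.log ‖σ c‖) q ε := by
  have hex : ∀ {n : ℕ} {a v : Fin (n + 1) → ℤ}, 0 < dot a v → ∃ i0, v i0 ≠ 0 := by
    intro n a v h
    by_contra hcon
    push Not at hcon
    have h1 : dot a v = 0 := Finset.sum_eq_zero fun i _ => by rw [hcon i, mul_zero]
    omega
  obtain ⟨al, v, hv, hpos, hmax⟩ := exists_vertex hW
  obtain ⟨be, v', hv', hpos', hmax'⟩ := exists_vertex hV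
  obtain ⟨i0, hi0⟩ := hex hpos
  obtain ⟨i0', hi0'⟩ := hex hpos'
  refine ⟨(2 * Real.pi) ^ (s + (t + 1)) * (RE al v i0 be v' i0' F.natDegree).det,
    mul_ne_zero (pow_ne_zero _ (by have := Real.pi_pos; positivity))
      (det_RE hpos hi0 hpos' hi0' hN), fun ε hε => ?_⟩
  exact exists_torus σ hF hN hv hpos hmax i0 hv' hpos' hmax' i0' hε

end Pool.Agent.N65.TE
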