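import Pool.Agent.N65.TE.Alg
set_option autoImplicit false

/-!
The symbols `{z_0, ..., z_s, y_0, ..., y_t}` on the fibre products are unramified.
-/

namespace Pool.Agent.N65.TE

open scoped WithZero

open Pool.Agent.TH826.MK

open Pool.Agent.N65.TL

open Pool.Agent.N65.TD

section poly

variable {K : Type*} [Field K] {L : Type*} [Field L] (φ : K →+* L) (v : Valuation L ℤᵐ⁰)

theorem val_poly_le {F : Polynomial K} (hF : ∀ k, IsIntegral ℤ (F.coeff k)) {x : L}
    (hx : v x ≤ 1) : v (F.eval₂ φ x) ≤ 1 := by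
  rw [Polynomial.eval₂_eq_sum_range]
  refine Valuation.map_sum_le v fun i _ => ?_
  rw [map_mul, map_pow]
  exact mul_le_one' (val_le_one_of_integral v (map_isIntegral_int φ (hF i)))
    (pow_le_one' hx _)

theorem val_poly_sub_lt {F : Polynomial K} (hF : MonicInt F) {x : L} (hx : 1 < v x) :
    v (F.eval₂ φ x - x ^ F.natDegree) < v x ^ F.natDegree := by
  have hx0 : 0 < v x := zero_lt_one.trans hx
  rw [Polynomial.eval₂_eq_sum_range, Finset.sum_range_succ, hF.monic.coeff_natDegree, map_one,
    one_mul, add_sub_cancel_right]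
  refine Valuation.map_sum_lt v (pow_ne_zero _ hx0.ne') fun i hi => ?_
  rw [map_mul, map_pow]
  calc v (φ (F.coeff i)) * v x ^ i ≤ 1 * v x ^ i :=
        mul_le_mul' (val_le_one_of_integral v (map_isIntegral_int φ (hF.int i))) le_rfl
    _ < v x ^ F.natDegree := by
      rw [one_mul]
      exact pow_lt_pow_right₀ hx (Finset.mem_range.1 hi)

theorem val_poly {F : Polynomial K} (hF : MonicInt F) {x : L} (hx : 1 < v x) :
    v (F.eval₂ φ x) = v x ^ F.natDegree := by
  have h1 := val_poly_sub_lt φ v hF hx
  rw [← map_pow] at h1 ⊢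
  have h2 : F.eval₂ φ x = x ^ F.natDegree + (F.eval₂ φ x - x ^ F.natDegree) := by ring
  rw [h2]
  exact Valuation.map_add_eq_of_lt_left v h1

end poly

section generic

variable {K : Type*} [Field K] {n : ℕ}

theorem val_lev_le {L : Type*} [Field L] (φ : K →+* L) (v : Valuation L ℤᵐ⁰) {W : LP K n}
    (hint : Integral W) (z : Fin n → Lˣ) {k : Fin n → ℤ}
    (hk : ∀ j, v (z j : L) = WithZero.exp (k j)) {m0 : Fin n → ℤ}
    (hmax : ∀ m', W.coeff m' ≠ 0 → ∑ i, k i * m' i ≤ ∑ i, k i * m0 i) :
    v (lev φ z W) ≤ v ((mon z m0 : Lˣ) : L) := by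
  have h1 : lev φ z W = ∑ m ∈ W.coeff.support, φ (W.coeff m) * ((mon z m : Lˣ) : L) :=
    lev_eq _ _ _
  rw [h1, val_mon v z hk]
  refine Valuation.map_sum_le v fun m hm => ?_
  rw [map_mul, val_mon v z hk]
  calc v (φ (W.coeff m)) * WithZero.exp (∑ i, k i * m i)
      ≤ 1 * WithZero.exp (∑ i, k i * m0 i) :=
        mul_le_mul' (val_le_one_of_integral v (map_isIntegral_int φ (hint m)))
          (WithZero.exp_le_exp.2 (hmax m (Finsupp.mem_support_iff.1 hm)))
    _ = _ := one_mul _

/-- If the value of the polynomial is larger than `1`, either the symbol lies in the unit part, or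
the value is congruent to the value of the face polynomial. -/
theorem generic_or {L : Type*} [Field L] (φ : K →+* L) (v : Valuation L ℤᵐ⁰) {N : ℕ}
    (a : Fin N → Lˣ) {p : Fin n → Fin N} (hp : Function.Injective p) {W : LP K n}
    (hint : Integral W) (hf : ∀ a : Fin n → ℤ, a ≠ 0 → Tame (face W a))
    (hbig : 1 < v (lev φ (fun j => a (p j)) W)) :
    symb a ∈ unitPart v N ∨ ∃ (k m0 : Fin n → ℤ), k ≠ 0 ∧
      (∀ j, v (a (p j) : L) = WithZero.exp (k j)) ∧ W.coeff m0 ≠ 0 ∧
      (∀ m', W.coeff m' ≠ 0 → ∑ i, k i * m' i ≤ ∑ i, k i * m0 i) ∧ 0 < ∑ i, k i * m0 i ∧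
      v (lev φ (fun j => a (p j)) W) = v ((mon (fun j => a (p j)) m0 : Lˣ) : L) ∧
      v (lev φ (fun j => a (p j)) W - lev φ (fun j => a (p j)) (face W k)) <
        v ((mon (fun j => a (p j)) m0 : Lˣ) : L) := by
  classical
  choose k hk using fun j => exists_ord v (a (p j))
  obtain ⟨m1, hm1⟩ : ∃ m1, W.coeff m1 ≠ 0 := by
    by_contra hcon
    push Not at hcon
    have h1 : W = 0 := by
      apply AddMonoidAlgebra.coeff_injective
      exact Finsupp.ext hcon
    rw [h1, map_zero, map_zero] at hbig
    exact absurd hbig (not_lt.2 zero_le_one)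
  obtain ⟨m0, hm0, hmax⟩ := exists_max_dot k hm1
  have hle := val_lev_le φ v hint (fun j => a (p j)) hk hmax
  have hsub := val_sub_face φ v hint (fun j => a (p j)) hk hm0 hmax
  have hM : 0 < ∑ i, k i * m0 i := by
    have h1 := hbig.trans_le hle
    rw [val_mon v _ hk, ← WithZero.exp_zero, WithZero.exp_lt_exp] at h1
    exact h1
  have hk0 : k ≠ 0 := by
    rintro rfl
    simp at hM
  rcases lt_or_eq_of_le hle with hlt | heq
  · left
    have h3 : v (lev φ (fun j => a (p j)) (face W k)) <
        v ((mon (fun j => a (p j)) m0 : Lˣ) : L) := by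
      have h4 : lev φ (fun j => a (p j)) (face W k) = lev φ (fun j => a (p j)) W -
          (lev φ (fun j => a (p j)) W - lev φ (fun j => a (p j)) (face W k)) := by ring
      rw [h4]
      exact (v.map_sub _ _).trans_lt (max_lt hlt hsub)
    refine mem_unitPart_of_tame φ v a hp (hf k hk0) (m0 := m0) ?_ h3
    rw [coeff_face_of W k m0 hmax]
    exact hm0
  · right
    exact ⟨k, m0, hk0, hk, hm0, hmax, hM, heq, hsub⟩

end generic

section main

variable {K : Type*} [Field K] {n n' N : ℕ} {L : Type*} [Field L]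

theorem upd_mem_iff (v : Valuation L ℤᵐ⁰) (c : Fin N → Lˣ) (l : Fin N) {x X : Lˣ} {k : ℕ}
    (h : v ((X : L) - (x : L) ^ k) < v (x : L) ^ k) :
    symb (Function.update c l X) ∈ unitPart v N ↔
      (k : ℚ) • symb (Function.update c l x) ∈ unitPart v N := by
  set w : Lˣ := X / x ^ k with hw
  have hX : X = x ^ (k : ℤ) * w := by rw [hw, zpow_natCast, mul_div_cancel]
  have hw1 : v ((w : L) - 1) < 1 := by
    have hx0 : ((x : L)) ^ k ≠ 0 := pow_ne_zero _ x.ne_zero
    have hv0 : 0 < v (x : L) ^ k := by
      rw [← map_pow, Valuation.pos_iff]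
      exact hx0
    rw [hw, Units.val_div_eq_div_val, Units.val_pow_eq_pow_val, div_sub_one hx0, map_div₀, map_pow,
      div_lt_one₀ hv0]
    exact h
  have h1 : symb (Function.update c l w) ∈ unitPart v N := by
    refine mem_unitPart_of_oneUnit' v l _ ?_
    rw [Function.update_self]
    exact hw1
  rw [hX, symb_update_mul, symb_update_zpow, Int.cast_natCast]
  constructor
  · intro h2
    have h3 := Submodule.sub_mem _ h2 h1
    rwa [add_sub_cancel_right] at h3
  · intro h2
    exact Submodule.add_mem _ h2 h1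

theorem mem_unitPart_pair (φ : K →+* L) (v : Valuation L ℤᵐ⁰) (a : Fin N → Lˣ)
    {p : Fin n → Fin N} (hp : Function.Injective p) {p' : Fin n' → Fin N}
    (hp' : Function.Injective p') (hdisj : ∀ i j, p i ≠ p' j)
    (hall : ∀ l, (∃ i, p i = l) ∨ ∃ j, p' j = l) {W : LP K n} (hW : SimplexFaces W)
    {V : LP K n'} (hV : ProductFaces V) {F G : Polynomial K} (hF : MonicInt F)
    (hG : MonicInt G) (x : L) (h1 : lev φ (fun j => a (p j)) W = F.eval₂ φ x)
    (h2 : lev φ (fun j => a (p' j)) V = G.eval₂ φ x) : symb a ∈ unitPart v N := by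
  classical
  have hWt : ∀ a : Fin n → ℤ, a ≠ 0 → Tame (face W a) := fun a ha =>
    SimplexType.tame (hW.faces a ha)
  have hVt : ∀ a : Fin n' → ℤ, a ≠ 0 → Tame (face V a) := fun a ha => (hV.faces a ha).tame
  rcases le_or_gt (v x) 1 with hx | hx
  · by_cases hz : ∃ j, v (a (p j) : L) ≠ 1
    · refine mem_unitPart_of_tempered φ v a hp hW.int hW.interior hWt ?_ hz
      rw [h1]
      exact val_poly_le φ v hF.int hx
    · by_cases hy : ∃ j, v (a (p' j) : L) ≠ 1
      · refine mem_unitPart_of_tempered φ v a hp' hV.int hV.interior hVt ?_ hy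
        rw [h2]
        exact val_poly_le φ v hG.int hx
      · push Not at hz hy
        refine Submodule.subset_span ⟨a, fun l => ?_, rfl⟩
        rcases hall l with ⟨i, rfl⟩ | ⟨j, rfl⟩
        · exact hz i
        · exact hy j
  · have hx0 : x ≠ 0 := by
      rintro rfl
      rw [map_zero] at hx
      exact absurd hx (not_lt.2 zero_le_one)
    have hvF := val_poly φ v hF hx
    have hvG := val_poly φ v hG hx
    have hFb : 1 < v (F.eval₂ φ x) := by
      rw [hvF]
      exact one_lt_pow₀ hx hF.pos.ne'
    have hGb : 1 < v (G.eval₂ φ x) := by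
      rw [hvG]
      exact one_lt_pow₀ hx hG.pos.ne'
    rcases generic_or φ v a hp hW.int hWt (by rw [h1]; exact hFb) with hd | ⟨k, m0, hk0, hk, hm0,
      hmax, hM, heq, hsub⟩
    · exact hd
    rcases generic_or φ v a hp' hV.int hVt (by rw [h2]; exact hGb) with hd | ⟨k', m0', hk0', hk',
      hm0', hmax', hM', heq', hsub'⟩
    · exact hd
    set z : Fin n → Lˣ := fun j => a (p j) with hz
    have hFne : F.eval₂ φ x ≠ 0 := by
      intro h0
      rw [h0, map_zero] at hFb
      exact absurd hFb (not_lt.2 zero_le_one)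
    have hGne : G.eval₂ φ x ≠ 0 := by
      intro h0
      rw [h0, map_zero] at hGb
      exact absurd hGb (not_lt.2 zero_le_one)
    set X : Lˣ := Units.mk0 _ hFne with hXdef
    set Y : Lˣ := Units.mk0 _ hGne with hYdef
    set xu : Lˣ := Units.mk0 x hx0 with hxu
    have hXv : (X : L) = F.eval₂ φ x := rfl
    have hYv : (Y : L) = G.eval₂ φ x := rfl
    have hxv : (xu : L) = x := rfl
    obtain ⟨d, m, ε, hm, hε, hface⟩ := hW.faces k hk0
    have hε0 : ∀ i, ε i ≠ 0 := by
      intro i h0
      obtain ⟨k', hk', hk1⟩ := hε i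
      rw [h0, zero_pow hk'] at hk1
      exact zero_ne_one hk1
    set u : Fin (d + 1) → Lˣ := fun i => Units.mk0 (φ (ε i)) ((map_ne_zero φ).2 (hε0 i)) with hu
    have hu1 : ∀ i, ∃ k : ℕ, k ≠ 0 ∧ u i ^ k = 1 := by
      intro i
      obtain ⟨k, hk, hk1⟩ := hε i
      refine ⟨k, hk, Units.ext ?_⟩
      rw [Units.val_pow_eq_pow_val, hu, Units.val_mk0, ← map_pow, hk1, map_one, Units.val_one]
    have huv : ∀ i, v (u i : L) = 1 := by
      intro i
      obtain ⟨k, hk, hk1⟩ := hε i
      refine val_root v hk ?_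
      rw [hu, Units.val_mk0, ← map_pow, hk1, map_one]
    have hdot : ∀ i, ∑ j, k j * m i j = ∑ j, k j * m0 j := by
      intro i
      have h3 : (face W k).coeff (m i) ≠ 0 := by
        rw [hface, AddMonoidAlgebra.coeff_sum, Finsupp.finsetSum_apply, Finset.sum_eq_single i]
        · rw [AddMonoidAlgebra.coeff_single, Finsupp.single_eq_same]
          exact hε0 i
        · intro j _ hj
          rw [AddMonoidAlgebra.coeff_single]
          exact Finsupp.single_eq_of_ne fun h => hj (hm.injective h).symm
        · intro h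
          exact absurd (Finset.mem_univ _) h
      have h4 : ∀ m', W.coeff m' ≠ 0 → ∑ j, k j * m' j ≤ ∑ j, k j * m i j := by
        by_contra h5
        exact h3 (coeff_face_of_not W k (m i) h5)
      have h6 : W.coeff (m i) ≠ 0 := by
        rw [← coeff_face_of W k (m i) h4]
        exact h3
      exact le_antisymm (hmax _ h6) (h4 _ hm0)
    have hlevf : lev φ z (face W k) = ∑ i, ((u i * mon z (m i) : Lˣ) : L) := by
      rw [hface, map_sum]
      refine Finset.sum_congr rfl fun i _ => ?_
      rw [lev_single, Units.val_mul]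
      rfl
    have hvX : v (X : L) = v ((mon z m0 : Lˣ) : L) := by
      rw [hXv, ← h1]
      exact heq
    refine mem_unitPart_of_generic v a hp m (linIndep_of_affine hm hM.ne' hdot) u hu1 X
      (fun i => ?_) ?_ fun c hc hcX => ?_
    · rw [Units.val_mul, map_mul, huv, one_mul, hvX, val_mon v z hk, val_mon v z hk, hdot]
    · rw [← hlevf, hvX, hXv, ← h1]
      exact hsub
    · obtain ⟨j0, hj0⟩ := hcX
      have hcu : c = Function.update c (p j0) X := by
        rw [← hj0, Function.update_eq_self]
      rw [hcu, upd_mem_iff v c (p j0) (x := xu) (k := F.natDegree) (by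
        rw [hXv, hxv]
        exact val_poly_sub_lt φ v hF hx)]
      have h3 : symb (Function.update c (p j0) Y) ∈ unitPart v N := by
        refine mem_unitPart_of_product φ v _ hp' (hV.faces k' hk0') (l0 := p j0)
          (fun j => (hdisj j0 j).symm) ?_
        have h4 : (fun j => Function.update c (p j0) Y (p' j)) = fun j => a (p' j) := by
          funext j
          rw [Function.update_of_ne (hdisj j0 j).symm]
          exact hc _ fun i => hdisj i j
        rw [h4, Function.update_self, hYv, ← h2, heq']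
        exact hsub'
      rw [upd_mem_iff v c (p j0) (x := xu) (k := G.natDegree) (by
        rw [hYv, hxv]
        exact val_poly_sub_lt φ v hG hx)] at h3
      have hG0 : (G.natDegree : ℚ) ≠ 0 := by exact_mod_cast hG.pos.ne'
      have h5 := (unitPart v N).smul_mem ((G.natDegree : ℚ)⁻¹) h3
      rw [smul_smul, inv_mul_cancel₀ hG0, one_smul] at h5
      exact (unitPart v N).smul_mem _ h5

end main

section ring

variable {K : Type*} [Field K] {s t : ℕ} (W : LP K (s + 1)) (V : LP K (t + 1))
  (F G : Polynomial K)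

theorem pmk_fst : pmk W V F G (inz s t W) = px W V F G F := by
  have h : pmk W V F G (inz s t W - yx s t F) = 0 :=
    Ideal.Quotient.eq_zero_iff_mem.2 (Ideal.subset_span (Set.mem_insert _ _))
  rw [map_sub, sub_eq_zero] at h
  exact h

theorem pmk_snd : pmk W V F G (iny s t V) = px W V F G G := by
  have h : pmk W V F G (iny s t V - yx s t G) = 0 :=
    Ideal.Quotient.eq_zero_iff_mem.2 (Ideal.subset_span
      (Set.mem_insert_of_mem _ (Set.mem_singleton _)))
  rw [map_sub, sub_eq_zero] at h
  exact h

variable {L : Type*} [CommRing L] (f : PRing W V F G →+* L)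

theorem f_px (P : Polynomial K) :
    f (px W V F G P) = P.eval₂ (f.comp (pcst W V F G)) (f (px W V F G Polynomial.X)) := by
  have h := Polynomial.hom_eval₂ P Polynomial.C (f.comp (px W V F G)) Polynomial.X
  rw [Polynomial.eval₂_C_X] at h
  exact h

theorem lev_pz : lev (f.comp (pcst W V F G))
    (fun i => Units.map (f : PRing W V F G →* L) (pz W V F G i)) W =
      F.eval₂ (f.comp (pcst W V F G)) (f (px W V F G Polynomial.X)) := by
  rw [← f_px, ← pmk_fst]
  have h3 : f (pmk W V F G (inz s t W)) = _ := hom_eq_lev (R := Polynomial K)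
    ((f.comp (pmk W V F G)).comp (yz s t))
    (AddMonoidAlgebra.mapRingHom (Fin (s + 1) → ℤ) Polynomial.C W)
  rw [h3, lev_map]
  rfl

theorem lev_py : lev (f.comp (pcst W V F G))
    (fun i => Units.map (f : PRing W V F G →* L) (py W V F G i)) V =
      G.eval₂ (f.comp (pcst W V F G)) (f (px W V F G Polynomial.X)) := by
  rw [← f_px, ← pmk_snd]
  have h3 : f (pmk W V F G (iny s t V)) = _ := hom_eq_lev (R := ZRing K s)
    (f.comp (pmk W V F G))
    (AddMonoidAlgebra.mapRingHom (Fin (t + 1) → ℤ) ((zx s).comp Polynomial.C) V)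
  rw [h3, lev_map]
  rfl

end ring

/-- The symbol is unramified. -/
theorem unram {K : Type*} [Field K] {s t : ℕ} {W : LP K (s + 1)} {V : LP K (t + 1)}
    {F G : Polynomial K} (hW : SimplexFaces W) (hV : ProductFaces V) (hF : MonicInt F)
    (hG : MonicInt G) {L : Type*} [Field L] (f : PRing W V F G →+* L) :
    KQ.map _ f (psym W V F G) ∈ Unramified L _ := by
  classical
  unfold psym
  rw [KQ.map_symb]
  unfold Unramified
  simp only [Submodule.mem_iInf]
  intro v _
  set a : Fin (s + (t + 1) + 1) → Lˣ := fun l => Units.map (f : PRing W V F G →* L)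
    (Sum.elim (pz W V F G) (py W V F G) ((esum s t).symm l)) with ha
  have haz : (fun i => a (esum s t (Sum.inl i))) = fun i =>
      Units.map (f : PRing W V F G →* L) (pz W V F G i) := by
    funext i
    rw [ha]
    simp only [Equiv.symm_apply_apply, Sum.elim_inl]
  have hay : (fun i => a (esum s t (Sum.inr i))) = fun i =>
      Units.map (f : PRing W V F G →* L) (py W V F G i) := by
    funext i
    rw [ha]
    simp only [Equiv.symm_apply_apply, Sum.elim_inr]
  refine mem_unitPart_pair (f.comp (pcst W V F G)) v a (p := fun i => esum s t (Sum.inl i))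
    (fun i j h => Sum.inl_injective ((esum s t).injective h))
    (p' := fun i => esum s t (Sum.inr i))
    (fun i j h => Sum.inr_injective ((esum s t).injective h))
    (fun i j h => Sum.inl_ne_inr ((esum s t).injective h)) (fun l => ?_) hW hV hF hG
    (f (px W V F G Polynomial.X)) ?_ ?_
  · obtain ⟨r, rfl⟩ := (esum s t).surjective l
    rcases r with i | j
    · exact Or.inl ⟨i, rfl⟩
    · exact Or.inr ⟨j, rfl⟩
  · rw [haz]
    exact lev_pz W V F G f
  · rw [hay]
    exact lev_py W V F G f

end Pool.Agent.N65.TE
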